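import Pool.Agent.H71R.Chain

set_option autoImplicit false

namespace Pool.Agent.H71R

theorem far_pos {a b c x K S H : ℚ} (ha : 0 < a) (hb : 0 < b) (hK : 0 < K) (hS : 0 < S)
    (haH : a ≤ H) (hbH : b ≤ H) (hcH : c ≤ H)
    (hg : Good a b c x) (hx : K * H + H + S * H ≤ x) :
    ∃ t₀ s₀ : ℚ, On a b c t₀ s₀ ∧ 2 * K * |t₀| ≤ 1 ∧ S ≤ |s₀| := by
  obtain ⟨u, v, hu0, hv0, hu, hv⟩ := hg.point ha hb
  obtain ⟨hOn, ht, hs, hx'⟩ := on_of_uv ha hb hu0 hv0 hu hv
  have hH : 0 < H := ha.trans_le haH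
  have hx0 : 0 < x := by
    have : 0 < K * H := by positivity
    have : 0 < S * H := by positivity
    linarith
  have hux : x ≤ u := by
    apply le_of_sq_le_sq _ hu0.le
    rw [← hu]; nlinarith
  have hvx : x - c ≤ v := by
    apply le_of_sq_le_sq _ hv0.le
    rw [← hv]; nlinarith
  refine ⟨_, _, hOn, ?_, ?_⟩
  · rw [abs_of_pos ht, mul_div_assoc', div_le_iff₀ ha, one_mul]
    have e1 : (u - x) * (u + x) = a ^ 2 := by linear_combination -hu
    have h1 : 0 ≤ u - x := by linarith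
    have h2 : K * a ≤ x := by
      have : K * a ≤ K * H := mul_le_mul_of_nonneg_left haH hK.le
      have : 0 < S * H := by positivity
      linarith
    have h3 : (u - x) * (2 * (K * a)) ≤ (u - x) * (u + x) :=
      mul_le_mul_of_nonneg_left (by linarith) h1
    have h4 : a * (2 * K * (u - x)) ≤ a * a := by rw [e1] at h3; linarith
    exact le_of_mul_le_mul_left h4 ha
  · rw [abs_of_pos hs, le_div_iff₀ hb]
    have h1 : S * b ≤ S * H := mul_le_mul_of_nonneg_left hbH hS.le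
    have : 0 < K * H := by positivity
    have : 0 < S * H := by positivity
    linarith

theorem far_neg {a b c x K S H : ℚ} (ha : 0 < a) (hb : 0 < b) (hc : 0 < c) (hK : 0 < K) (hS : 0 < S)
    (haH : a ≤ H) (hbH : b ≤ H)
    (hg : Good a b c x) (hx : K * H + H + S * H ≤ -x) :
    ∃ t₀ s₀ : ℚ, On a b c t₀ s₀ ∧ 2 * K * |t₀| ≤ 1 ∧ S ≤ |s₀| := by
  obtain ⟨u, v, hu0, hv0, hu, hv⟩ := hg.point ha hb
  obtain ⟨hOn, ht, hs, hx'⟩ := on_of_uv ha hb hu0 hv0 hu hv
  have hH : 0 < H := ha.trans_le haH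
  have hx0 : 0 < -x := by
    have : 0 < K * H := by positivity
    have : 0 < S * H := by positivity
    linarith
  have hux : -x ≤ u := by
    apply le_of_sq_le_sq _ hu0.le
    rw [← hu]; nlinarith
  have hvx : c - x ≤ v := by
    apply le_of_sq_le_sq _ hv0.le
    rw [← hv]; nlinarith
  refine ⟨_, _, hOn.neg, ?_, ?_⟩
  · rw [abs_div, abs_neg, abs_one, abs_of_pos ht, mul_div_assoc', div_le_iff₀ ht, mul_one, one_mul,
      le_div_iff₀ ha]
    have h2 : K * a ≤ -x := by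
      have : K * a ≤ K * H := mul_le_mul_of_nonneg_left haH hK.le
      have : 0 < S * H := by positivity
      linarith
    linarith
  · rw [abs_div, abs_neg, abs_one, abs_of_pos hs, le_div_iff₀ hs, mul_div_assoc', div_le_iff₀ hb]
    have e1 : (v + (x - c)) * (v - (x - c)) = b ^ 2 := by linear_combination -hv
    have h3 : 0 ≤ v + (x - c) := by linarith
    have h1 : S * b ≤ v - (x - c) := by
      have h1 : S * b ≤ S * H := mul_le_mul_of_nonneg_left hbH hS.le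
      have : 0 < K * H := by positivity
      linarith
    have h4 : (v + (x - c)) * (S * b) ≤ b ^ 2 := by
      rw [← e1]; exact mul_le_mul_of_nonneg_left h1 h3
    have h5 : b * (S * (v + (x - c))) ≤ b * (1 * b) := by linarith
    exact le_of_mul_le_mul_left h5 hb

theorem near_lem {a b c x y K S H M K' L₀ ρ : ℚ} (hH : 1 ≤ H) (ha : 0 < a) (hb : 0 < b) (hc : 0 < c)
    (haH : a ≤ H) (hbH : b ≤ H) (hcH : c ≤ H) (ha' : 1 ≤ H * a) (hb' : 1 ≤ H * b)
    (hK : 0 < K) (hS : 0 < S) (hK' : K' = H * (2 * M + 3 * H))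
    (hL₀ : L₀ = 8 * K * H ^ 2 * K' ^ 3 + K' * (S + K' + 4 * H ^ 2 * K' ^ 3) + 2 * H ^ 2 + 1)
    (hρ : ρ = 1 / (K' * H * L₀))
    (hgx : Good a b c x) (hgy : Good a b c y) (hx : |x| ≤ M) (hy : |y| ≤ M) (hne : x ≠ y)
    (hxy : |x - y| ≤ ρ) :
    ∃ t₀ s₀ : ℚ, On a b c t₀ s₀ ∧ 2 * K * |t₀| ≤ 1 ∧ S ≤ |s₀| := by
  have hM : 0 ≤ M := (abs_nonneg x).trans hx
  obtain ⟨t, s, hOn, ht, hs, hx', htK, hsK, ht1, hs1⟩ :=
    good_bounds hH ha hb hc haH hbH hcH ha' hb' hx hgx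
  obtain ⟨t', s', hOn', ht', hs', hy', htK', hsK', ht1', hs1'⟩ :=
    good_bounds hH ha hb hc haH hbH hcH ha' hb' hy hgy
  rw [← hK'] at htK hsK ht1 hs1 htK' hsK' ht1' hs1'
  have hH0 : 0 < H := by linarith
  have hK'1 : 1 ≤ K' := by
    rw [hK']; nlinarith
  have hK'0 : 0 < K' := by linarith
  have hL0 : 0 < L₀ := by rw [hL₀]; positivity
  have htt : t ≠ t' := by
    rintro rfl
    exact hne (by rw [hx', hy'])
  have hd : t - t' ≠ 0 := sub_ne_zero.mpr htt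
  have hd0 : 0 < |t - t'| := abs_pos.mpr hd
  -- |t - t'| ≤ 2 ρ H
  have hdt : |t - t'| ≤ 2 * H * ρ := by
    have e := x_diff (a := a) ht'.ne' ht.ne'
    rw [← hx', ← hy'] at e
    have h1 : |x - y| = (a / 2) * |t - t'| * (1 + 1 / (t' * t)) := by
      rw [e, abs_mul, abs_mul, abs_neg, abs_of_pos (by positivity : 0 < a / 2),
        abs_of_pos (by positivity : 0 < 1 + 1 / (t' * t))]
    have h2 : (a / 2) * |t - t'| ≤ |x - y| := by
      rw [h1]
      apply le_mul_of_one_le_right (by positivity)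
      have : 0 < 1 / (t' * t) := by positivity
      linarith
    have h3 : 1 * |t - t'| ≤ (H * a) * |t - t'| := mul_le_mul_of_nonneg_right ha' hd0.le
    have h4 : H * ((a / 2) * |t - t'|) ≤ H * ρ := mul_le_mul_of_nonneg_left (h2.trans hxy) hH0.le
    linarith
  obtain ⟨m, hm⟩ : ∃ m : ℚ, m = (s - (-1 / s')) / (t - t') := ⟨_, rfl⟩
  obtain ⟨L, hL⟩ : ∃ L : ℚ, L = |m| := ⟨_, rfl⟩
  have hLL : L₀ ≤ L := by
    rw [hL, hm, abs_div, le_div_iff₀ hd0]
    have h1 : s - (-1 / s') = s + 1 / s' := by ring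
    rw [h1, abs_of_pos (by positivity : 0 < s + 1 / s')]
    have h2 : 2 / K' ≤ s + 1 / s' := by
      have h3 : 1 / K' ≤ s := by rw [div_le_iff₀ hK'0]; linarith
      have h4 : 1 / K' ≤ 1 / s' := one_div_le_one_div_of_le hs' hsK'
      have : 2 / K' = 1 / K' + 1 / K' := by ring
      linarith
    have h5 : L₀ * |t - t'| ≤ L₀ * (2 * H * ρ) := mul_le_mul_of_nonneg_left hdt hL0.le
    have h6 : L₀ * (2 * H * ρ) = 2 / K' := by
      rw [hρ]; field_simp
    linarith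
  have hL0' : 0 < L := by linarith
  have hm0 : m ≠ 0 := by
    intro h; rw [h, abs_zero] at hL; linarith
  obtain ⟨k, hk⟩ : ∃ k : ℚ, k = s - m * t := ⟨_, rfl⟩
  have hmt1 : |m * t| = L * t := by rw [abs_mul, ← hL, abs_of_pos ht]
  have hk1 : L / K' - K' ≤ |k| := by
    have h1 : |m * t| - |s| ≤ |k| := by
      rw [hk, abs_sub_comm]; exact abs_sub_abs_le_abs_sub _ _
    rw [hmt1, abs_of_pos hs] at h1
    have h2 : L / K' ≤ L * t := by
      rw [div_le_iff₀ hK'0]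
      calc L = L * 1 := by ring
        _ ≤ L * (K' * t) := mul_le_mul_of_nonneg_left ht1 hL0'.le
        _ = L * t * K' := by ring
    linarith
  have hk2 : |k| ≤ L * K' + K' := by
    have h1 : |k| ≤ |s| + |m * t| := by rw [hk]; exact abs_sub _ _
    rw [hmt1, abs_of_pos hs] at h1
    have h2 : L * t ≤ L * K' := mul_le_mul_of_nonneg_left htK hL0'.le
    linarith
  have hLbig1 : 8 * K * H ^ 2 * K' ^ 3 ≤ L := by
    have : 0 < K' * (S + K' + 4 * H ^ 2 * K' ^ 3) := by positivity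
    have : 0 < 2 * H ^ 2 := by positivity
    linarith
  have hLbig2 : K' * (S + K' + 4 * H ^ 2 * K' ^ 3) ≤ L := by
    have : 0 < 8 * K * H ^ 2 * K' ^ 3 := by positivity
    have : 0 < 2 * H ^ 2 := by positivity
    linarith
  have hLbig3 : 2 * H ^ 2 ≤ L := by
    have : 0 < K' * (S + K' + 4 * H ^ 2 * K' ^ 3) := by positivity
    have : 0 < 8 * K * H ^ 2 * K' ^ 3 := by positivity
    linarith
  have hLbig4 : 1 ≤ L := by
    have : 0 < K' * (S + K' + 4 * H ^ 2 * K' ^ 3) := by positivity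
    have : 0 < 8 * K * H ^ 2 * K' ^ 3 := by positivity
    have : 0 < 2 * H ^ 2 := by positivity
    linarith
  have hk3 : S + 4 * H ^ 2 * K' ^ 3 ≤ L / K' - K' := by
    have : S + K' + 4 * H ^ 2 * K' ^ 3 ≤ L / K' := by
      rw [le_div_iff₀ hK'0]; linarith
    linarith
  have hk0 : k ≠ 0 := by
    intro h
    rw [h, abs_zero] at hk1
    have : 0 < 4 * H ^ 2 * K' ^ 3 := by positivity
    linarith
  -- |a + b m| ≥ L/(2H)
  have hab1 : L / (2 * H) ≤ |a + b * m| := by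
    have h1 : |b * m| - |a| ≤ |a + b * m| := by
      have := abs_sub_abs_le_abs_sub (b * m) (-a)
      rw [abs_neg] at this
      have e : b * m - -a = a + b * m := by ring
      rwa [e] at this
    rw [abs_mul, abs_of_pos hb, abs_of_pos ha, ← hL] at h1
    have h2 : L / H ≤ b * L := by
      rw [div_le_iff₀ hH0]
      calc L = 1 * L := by ring
        _ ≤ (H * b) * L := mul_le_mul_of_nonneg_right hb' hL0'.le
        _ = b * L * H := by ring
    have h3 : H ≤ L / (2 * H) := by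
      rw [le_div_iff₀ (by positivity)]; linarith
    have h4 : L / H = L / (2 * H) + L / (2 * H) := by field_simp; ring
    linarith
  have hab0 : a + b * m ≠ 0 := by
    intro h
    rw [h, abs_zero] at hab1
    have : 0 < L / (2 * H) := by positivity
    linarith
  have hden : m * (a + b * m) * t * t' ≠ 0 :=
    mul_ne_zero (mul_ne_zero (mul_ne_zero hm0 hab0) ht.ne') ht'.ne'
  obtain ⟨t₃, ht3⟩ : ∃ t₃ : ℚ, t₃ = a * k / (m * (a + b * m) * t * t') := ⟨_, rfl⟩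
  have ht3ne : t₃ ≠ 0 := by rw [ht3]; exact div_ne_zero (mul_ne_zero ha.ne' hk0) hden
  have h3 : m * (a + b * m) * t * t' * t₃ = a * k := by
    rw [ht3, mul_comm, div_mul_cancel₀ _ hden]
  have hs1'' : s = m * t + k := by rw [hk]; ring
  have hs0'' : -1 / s' = m * t' + k := by
    have : m * (t - t') = s - (-1 / s') := by rw [hm, div_mul_cancel₀ _ hd]
    rw [hk]; linear_combination this
  obtain ⟨hOn3, _⟩ := third hOn hOn'.flip htt hb.ne' hs1'' hs0'' ht3ne h3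
  -- |t₃| ≤ 4 H² K'³ / L
  have ht3b : L * |t₃| ≤ 4 * H ^ 2 * K' ^ 3 := by
    have e1 : L * |a + b * m| * t * t' * |t₃| = a * |k| := by
      have := congrArg abs h3
      rw [abs_mul, abs_mul, abs_mul, abs_mul, abs_mul, ← hL, abs_of_pos ht, abs_of_pos ht',
        abs_of_pos ha] at this
      exact this
    have h4 : a * |k| ≤ H * (2 * L * K') := by
      apply mul_le_mul haH _ (abs_nonneg _) hH0.le
      have : K' ≤ L * K' := le_mul_of_one_le_left hK'0.le hLbig4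
      linarith
    -- L * (L/(2H)) * (1/K'^2) * |t₃| ≤ a|k|
    have h5 : (L / (2 * H)) * (1 / K') * (1 / K') ≤ |a + b * m| * t * t' := by
      have h6 : 1 / K' ≤ t := by rw [div_le_iff₀ hK'0]; linarith
      have h7 : 1 / K' ≤ t' := by rw [div_le_iff₀ hK'0]; linarith
      apply mul_le_mul _ h7 (by positivity) (by positivity)
      exact mul_le_mul hab1 h6 (by positivity) (by positivity)
    have h6 : L * |t₃| * ((L / (2 * H)) * (1 / K') * (1 / K')) ≤ H * (2 * L * K') := by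
      calc L * |t₃| * ((L / (2 * H)) * (1 / K') * (1 / K')) ≤ L * |t₃| * (|a + b * m| * t * t') :=
            mul_le_mul_of_nonneg_left h5 (by positivity)
        _ = a * |k| := by rw [← e1]; ring
        _ ≤ _ := h4
    have h7 : L * |t₃| * ((L / (2 * H)) * (1 / K') * (1 / K')) =
        (L * |t₃|) * (L / (2 * H * K' ^ 2)) := by
      field_simp
    rw [h7, mul_div_assoc', div_le_iff₀ (by positivity)] at h6
    have h8 : L * (L * |t₃|) ≤ L * (4 * H ^ 2 * K' ^ 3) := by linarith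
    exact le_of_mul_le_mul_left h8 hL0'
  refine ⟨t₃, m * t₃ + k, hOn3, ?_, ?_⟩
  · have h1 : L * (2 * K * |t₃|) ≤ L * 1 := by
      calc L * (2 * K * |t₃|) = 2 * K * (L * |t₃|) := by ring
        _ ≤ 2 * K * (4 * H ^ 2 * K' ^ 3) := mul_le_mul_of_nonneg_left ht3b (by positivity)
        _ = 8 * K * H ^ 2 * K' ^ 3 := by ring
        _ ≤ L := hLbig1
        _ = L * 1 := by ring
    exact le_of_mul_le_mul_left h1 hL0'
  · have h1 : |k| - |m * t₃| ≤ |m * t₃ + k| := by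
      have := abs_sub_abs_le_abs_sub k (-(m * t₃))
      rw [abs_neg] at this
      have e : k - -(m * t₃) = m * t₃ + k := by ring
      rwa [e] at this
    rw [abs_mul m, ← hL] at h1
    linarith

theorem exists_aux {H K S : ℚ} (hH : 1 ≤ H) (hK : 0 < K) (hS : 0 < S) :
    ∃ N : ℕ, ∀ a b c : ℚ, 0 < a → 0 < b → 0 < c → a ≤ H → b ≤ H → c ≤ H → 1 ≤ H * a → 1 ≤ H * b →
      ∀ F : Finset ℚ, N ≤ F.card → (∀ x ∈ F, Good a b c x) →
      ∃ t₀ s₀ : ℚ, On a b c t₀ s₀ ∧ 2 * K * |t₀| ≤ 1 ∧ S ≤ |s₀| := by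
  obtain ⟨M, hM⟩ : ∃ M : ℚ, M = K * H + H + S * H := ⟨_, rfl⟩
  have hH0 : 0 < H := by linarith
  have hM0 : 0 < M := by rw [hM]; positivity
  obtain ⟨K', hK'⟩ : ∃ K' : ℚ, K' = H * (2 * M + 3 * H) := ⟨_, rfl⟩
  have hK'0 : 0 < K' := by rw [hK']; positivity
  obtain ⟨L₀, hL₀⟩ : ∃ L₀ : ℚ, L₀ = 8 * K * H ^ 2 * K' ^ 3 + K' * (S + K' + 4 * H ^ 2 * K' ^ 3) +
    2 * H ^ 2 + 1 := ⟨_, rfl⟩
  have hL0 : 0 < L₀ := by rw [hL₀]; positivity
  obtain ⟨ρ, hρ⟩ : ∃ ρ : ℚ, ρ = 1 / (K' * H * L₀) := ⟨_, rfl⟩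
  have hρ0 : 0 < ρ := by rw [hρ]; positivity
  refine ⟨(Finset.Icc ⌊-M / ρ⌋ ⌊M / ρ⌋).card + 1, ?_⟩
  intro a b c ha hb hc haH hbH hcH ha' hb' F hF hG
  by_cases h1 : ∃ x ∈ F, M ≤ x
  · obtain ⟨x, hx, hxM⟩ := h1
    exact far_pos ha hb hK hS haH hbH hcH (hG x hx) (by linarith)
  by_cases h2 : ∃ x ∈ F, M ≤ -x
  · obtain ⟨x, hx, hxM⟩ := h2
    exact far_neg ha hb hc hK hS haH hbH (hG x hx) (by linarith)
  push Not at h1 h2
  have hbd : ∀ x ∈ F, |x| ≤ M := fun x hx =>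
    abs_le.mpr ⟨by linarith [h2 x hx], (h1 x hx).le⟩
  obtain ⟨x, hx, y, hy, hne, hxy⟩ := Finset.exists_ne_map_eq_of_card_lt_of_maps_to
    (s := F) (t := Finset.Icc ⌊-M / ρ⌋ ⌊M / ρ⌋) (f := fun x => ⌊x / ρ⌋) (by omega) (by
      intro x hx
      have := abs_le.mp (hbd x hx)
      simp only [Finset.coe_Icc, Set.mem_Icc]
      exact ⟨Int.floor_le_floor (div_le_div_of_nonneg_right this.1 hρ0.le),
        Int.floor_le_floor (div_le_div_of_nonneg_right this.2 hρ0.le)⟩)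
  have h3 : |x / ρ - y / ρ| < 1 := Int.abs_sub_lt_one_of_floor_eq_floor hxy
  have h4 : |x - y| ≤ ρ := by
    rw [← sub_div, abs_div, abs_of_pos hρ0, div_lt_iff₀ hρ0] at h3
    linarith
  exact near_lem hH ha hb hc haH hbH hcH ha' hb' hK hS hK' hL₀ hρ (hG x hx) (hG y hy)
    (hbd x hx) (hbd y hy) hne h4

/-- Lemma A: many good points imply density of good points. -/
theorem lemmaA {H M ε : ℚ} (hH : 1 ≤ H) (hM : 0 ≤ M) (hε : 0 < ε) :
    ∃ N : ℕ, ∀ a b c : ℚ, 0 < a → 0 < b → 0 < c → a ≤ H → b ≤ H → c ≤ H → 1 ≤ H * a → 1 ≤ H * b →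
      ∀ F : Finset ℚ, N ≤ F.card → (∀ x ∈ F, Good a b c x) → ∀ x₀ : ℚ, Good a b c x₀ → |x₀| ≤ M →
      ∀ y : ℚ, |y| ≤ M → ∃ x, Good a b c x ∧ |x - y| ≤ ε := by
  have hH0 : 0 < H := by linarith
  obtain ⟨K, hKdef⟩ : ∃ K : ℚ, K = H * (2 * M + 3 * H) := ⟨_, rfl⟩
  have hK : 0 < K := by rw [hKdef]; positivity
  obtain ⟨N, hN⟩ := exists_aux (H := H) (K := K) (S := K + 36 * K ^ 5 + 27 * K ^ 5 / ε) hH hK
    (by positivity)
  refine ⟨N, ?_⟩
  intro a b c ha hb hc haH hbH hcH ha' hb' F hF hG x₀ hx₀ hx₀M y hy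
  obtain ⟨t₀, s₀, h0, h0t, h0s⟩ := hN a b c ha hb hc haH hbH hcH ha' hb' F hF hG
  exact dense_of_aux hH ha hb hc haH hbH hcH ha' hb' hKdef h0 h0t hε h0s hx₀ hx₀M hy

end Pool.Agent.H71R
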