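import Pool.Agent.H71R.Seq

set_option autoImplicit false

namespace Pool.Agent.H71R

theorem Good.scale {a b c x : ℚ} (k : ℚ) (h : Good a b c x) : Good (k * a) (k * b) (k * c) (k * x) := by
  obtain ⟨⟨u, hu⟩, ⟨v, hv⟩⟩ := h
  exact ⟨⟨k * u, by linear_combination k ^ 2 * hu⟩, ⟨k * v, by linear_combination k ^ 2 * hv⟩⟩

theorem exists_half_angle (r : ℝ) : ∃ t : ℝ, 0 < t ∧ t ^ 2 - 1 = 2 * t * r := by
  have h : 0 ≤ r ^ 2 + 1 := by positivity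
  have hs := Real.sq_sqrt h
  refine ⟨r + √(r ^ 2 + 1), ?_, ?_⟩
  · have h1 : |r| < √(r ^ 2 + 1) := by
      apply Real.lt_sqrt_of_sq_lt
      rw [sq_abs]; linarith
    linarith [neg_abs_le r]
  · linear_combination hs

/-- parameter polynomials, over any commutative ring -/
theorem lemmaB {a' b' c' : ℝ} (hc : 0 < c') (N : ℕ) {η : ℝ} (hη : 0 < η) :
    ∃ a b c : ℚ, |(a : ℝ) - a'| < η ∧ |(b : ℝ) - b'| < η ∧ |(c : ℝ) - c'| < η ∧
      (∃ r : ℚ, c ^ 2 + (a + b) ^ 2 = r ^ 2) ∧ (∃ r : ℚ, c ^ 2 + (a - b) ^ 2 = r ^ 2) ∧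
      ∃ F : Finset ℚ, N ≤ F.card ∧ ∀ x ∈ F, Good a b c x := by
  classical
  obtain ⟨t, ht, hte⟩ := exists_half_angle ((a' + b') / c')
  obtain ⟨s, hs, hse⟩ := exists_half_angle ((a' - b') / c')
  obtain ⟨k, hk⟩ : ∃ k : ℝ, k = c' / (4 * s * t) := ⟨_, rfl⟩
  have hk0 : 0 < k := by rw [hk]; positivity
  let f : ℝ × ℝ × ℝ × ℝ → ℝ × ℝ × ℝ := fun p =>
    (p.2.2.2 * ((1 / 2 + p.1 * (p.2.1 - 1 / 2)) * ((2 + p.1 * (p.2.2.1 - 2)) ^ 2 - 1) +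
        (2 + p.1 * (p.2.2.1 - 2)) * ((1 / 2 + p.1 * (p.2.1 - 1 / 2)) ^ 2 - 1)),
      p.2.2.2 * ((1 / 2 + p.1 * (p.2.1 - 1 / 2)) * ((2 + p.1 * (p.2.2.1 - 2)) ^ 2 - 1) -
        (2 + p.1 * (p.2.2.1 - 2)) * ((1 / 2 + p.1 * (p.2.1 - 1 / 2)) ^ 2 - 1)),
      p.2.2.2 * (4 * (1 / 2 + p.1 * (p.2.1 - 1 / 2)) * (2 + p.1 * (p.2.2.1 - 2))))
  have hf : Continuous f := by
    show Continuous fun p : ℝ × ℝ × ℝ × ℝ => ((_ : ℝ), ((_ : ℝ), (_ : ℝ)))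
    fun_prop
  have hfv : f (1, s, t, k) = (a', b', c') := by
    have e1 : 2 * t * ((a' + b') / c') * c' = 2 * t * (a' + b') := by field_simp
    have e2 : 2 * s * ((a' - b') / c') * c' = 2 * s * (a' - b') := by field_simp
    rw [← hte] at e1
    rw [← hse] at e2
    have hkk : k * (4 * s * t) = c' := by rw [hk, div_mul_cancel₀ _ (by positivity)]
    have hst : s * t ≠ 0 := by positivity
    have hc' : c' ≠ 0 := hc.ne'
    simp only [f]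
    refine Prod.ext ?_ (Prod.ext ?_ ?_)
    · show k * ((1 / 2 + 1 * (s - 1 / 2)) * ((2 + 1 * (t - 2)) ^ 2 - 1) +
        (2 + 1 * (t - 2)) * ((1 / 2 + 1 * (s - 1 / 2)) ^ 2 - 1)) = a'
      rw [hk]
      field_simp
      linear_combination (4 * s) * e1 + (4 * t) * e2
    · show k * ((1 / 2 + 1 * (s - 1 / 2)) * ((2 + 1 * (t - 2)) ^ 2 - 1) -
        (2 + 1 * (t - 2)) * ((1 / 2 + 1 * (s - 1 / 2)) ^ 2 - 1)) = b'
      rw [hk]
      field_simp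
      linear_combination (4 * s) * e1 - (4 * t) * e2
    · show k * (4 * (1 / 2 + 1 * (s - 1 / 2)) * (2 + 1 * (t - 2))) = c'
      linear_combination hkk
  obtain ⟨δ, hδ, hcl⟩ := Metric.continuousAt_iff.mp (hf.continuousAt (x := (1, s, t, k))) η hη
  rw [hfv] at hcl
  obtain ⟨s₁, hs₁⟩ := exists_rat_near s hδ
  obtain ⟨t₁, ht₁⟩ := exists_rat_near t hδ
  obtain ⟨k₁, hk₁⟩ := exists_rat_near k (lt_min hδ hk0)
  have hk₁0 : k₁ ≠ 0 := by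
    rintro rfl
    rw [Rat.cast_zero, sub_zero, abs_of_pos hk0] at hk₁
    exact absurd (lt_min_iff.mp hk₁).2 (lt_irrefl _)
  have hk₁δ : |k - k₁| < δ := (lt_min_iff.mp hk₁).1
  obtain ⟨d, hd0, hdδ⟩ := exists_rat_btwn hδ
  have hd0' : (0:ℚ) < d := by exact_mod_cast hd0
  let σ : Polynomial ℚ := Polynomial.C (1 / 2) + Polynomial.X * Polynomial.C (s₁ - 1 / 2)
  let τ : Polynomial ℚ := Polynomial.C 2 + Polynomial.X * Polynomial.C (t₁ - 2)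
  let A : Polynomial ℚ := σ * (τ ^ 2 - 1) + τ * (σ ^ 2 - 1)
  let B : Polynomial ℚ := σ * (τ ^ 2 - 1) - τ * (σ ^ 2 - 1)
  let C : Polynomial ℚ := Polynomial.C 4 * σ * τ
  have hσ : ∀ x : ℚ, σ.eval x = 1 / 2 + x * (s₁ - 1 / 2) := by intro x; simp [σ]
  have hτ : ∀ x : ℚ, τ.eval x = 2 + x * (t₁ - 2) := by intro x; simp [τ]
  have hAe : ∀ x : ℚ, A.eval x = (σ.eval x) * ((τ.eval x) ^ 2 - 1) + (τ.eval x) * ((σ.eval x) ^ 2 - 1) := by
    intro x; simp only [A, Polynomial.eval_add, Polynomial.eval_mul, Polynomial.eval_sub,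
      Polynomial.eval_pow, Polynomial.eval_one]
  have hBe : ∀ x : ℚ, B.eval x = (σ.eval x) * ((τ.eval x) ^ 2 - 1) - (τ.eval x) * ((σ.eval x) ^ 2 - 1) := by
    intro x; simp only [B, Polynomial.eval_mul, Polynomial.eval_sub,
      Polynomial.eval_pow, Polynomial.eval_one]
  have hCe : ∀ x : ℚ, C.eval x = 4 * (σ.eval x) * (τ.eval x) := by
    intro x; simp only [C, Polynomial.eval_mul, Polynomial.eval_C]
  obtain ⟨x, hx1, hx2, hCx, hZ, hne⟩ := generic_path A B C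
    (by rw [hAe, hσ, hτ]; norm_num) (by rw [hBe, hσ, hτ]; norm_num) (by rw [hCe, hσ, hτ]; norm_num)
    (N + 1) (l := 1 - d) (r := 1 + d) (by linarith)
  have hclose := hcl (x := ((x : ℝ), (s₁ : ℝ), (t₁ : ℝ), (k₁ : ℝ))) (by
    rw [Prod.dist_eq, Prod.dist_eq, Prod.dist_eq]
    simp only [max_lt_iff]
    refine ⟨?_, ?_, ?_, ?_⟩
    · rw [Real.dist_eq, abs_lt]
      have h1 : (1:ℝ) - d < x := by exact_mod_cast hx1
      have h2 : (x:ℝ) < 1 + d := by exact_mod_cast hx2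
      constructor <;> linarith
    · rw [Real.dist_eq, abs_sub_comm]; exact hs₁
    · rw [Real.dist_eq, abs_sub_comm]; exact ht₁
    · rw [Real.dist_eq, abs_sub_comm]; exact hk₁δ)
  have e1 : (f ((x : ℝ), (s₁ : ℝ), (t₁ : ℝ), (k₁ : ℝ))).1 = ((k₁ * A.eval x : ℚ) : ℝ) := by
    rw [hAe, hσ, hτ]; simp only [f]; push_cast; ring
  have e2 : (f ((x : ℝ), (s₁ : ℝ), (t₁ : ℝ), (k₁ : ℝ))).2.1 = ((k₁ * B.eval x : ℚ) : ℝ) := by
    rw [hBe, hσ, hτ]; simp only [f]; push_cast; ring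
  have e3 : (f ((x : ℝ), (s₁ : ℝ), (t₁ : ℝ), (k₁ : ℝ))).2.2 = ((k₁ * C.eval x : ℚ) : ℝ) := by
    rw [hCe, hσ, hτ]; simp only [f]; push_cast; ring
  rw [Prod.dist_eq, Prod.dist_eq] at hclose
  simp only [max_lt_iff, Real.dist_eq] at hclose
  rw [e1, e2, e3] at hclose
  obtain ⟨h1, h2, h3⟩ := hclose
  refine ⟨k₁ * A.eval x, k₁ * B.eval x, k₁ * C.eval x, h1, h2, h3, ?_, ?_, ?_⟩
  · rw [hAe, hBe, hCe]
    exact ⟨k₁ * (2 * (σ.eval x) * ((τ.eval x) ^ 2 + 1)), by ring⟩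
  · rw [hAe, hBe, hCe]
    exact ⟨k₁ * (2 * (τ.eval x) * ((σ.eval x) ^ 2 + 1)), by ring⟩
  · refine ⟨(Finset.range N).image (fun n => k₁ * xn (A.eval x) (B.eval x) (C.eval x) n), ?_, ?_⟩
    · rw [Finset.card_image_of_injOn, Finset.card_range]
      intro i hi j hj hij
      by_contra hcon
      have hi' := Finset.mem_range.mp (Finset.mem_coe.mp hi)
      have hj' := Finset.mem_range.mp (Finset.mem_coe.mp hj)
      refine xn_ne hCx (hZ i (by omega)) (hZ (i + 1) (by omega)) (hZ j (by omega))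
        (hZ (j + 1) (by omega)) (hne i (by omega) j (by omega) hcon) ?_
      exact mul_left_cancel₀ hk₁0 hij
    · intro y hy
      obtain ⟨n, hn, rfl⟩ := Finset.mem_image.mp hy
      have hn' := Finset.mem_range.mp hn
      exact (good_xn hCx (hZ n (by omega)) (hZ (n + 1) (by omega))).scale k₁

theorem good_start {a b c : ℚ} (hc : c ≠ 0) (hβ : a ^ 2 - b ^ 2 ≠ 0) :
    Good a b c (a ^ 2 * c / (a ^ 2 - b ^ 2) - (a ^ 2 - b ^ 2) / (4 * c)) := by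
  obtain ⟨β, hβe⟩ : ∃ β : ℚ, β = a ^ 2 - b ^ 2 := ⟨_, rfl⟩
  rw [← hβe] at hβ ⊢
  refine ⟨⟨a ^ 2 * c / β + β / (4 * c), ?_⟩, ⟨b ^ 2 * c / β + β / (4 * c), ?_⟩⟩
  · field_simp
    ring
  · have hb : b ^ 2 = a ^ 2 - β := by rw [hβe]; ring
    rw [hb]
    field_simp
    ring

theorem core_pos {a' b' c' : ℝ} (ha : 0 < a') (hb : 0 < b') (hc : 0 < c') (hab : a' ≠ b')
    (M : ℝ) {η : ℝ} (hη : 0 < η) :
    ∃ a b c : ℚ, |(a : ℝ) - a'| < η ∧ |(b : ℝ) - b'| < η ∧ |(c : ℝ) - c'| < η ∧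
      (∃ r : ℚ, c ^ 2 + (a + b) ^ 2 = r ^ 2) ∧ (∃ r : ℚ, c ^ 2 + (a - b) ^ 2 = r ^ 2) ∧
      ∀ y : ℝ, |y| ≤ M → ∃ x : ℚ, |(x : ℝ) - y| < η ∧ Good a b c x := by
  have hβ : a' ^ 2 - b' ^ 2 ≠ 0 := by
    intro h
    have : (a' - b') * (a' + b') = 0 := by linear_combination h
    rcases mul_eq_zero.mp this with h | h
    · exact hab (sub_eq_zero.mp h)
    · linarith
  let g : ℝ × ℝ × ℝ → ℝ := fun p =>
    p.1 ^ 2 * p.2.2 / (p.1 ^ 2 - p.2.1 ^ 2) - (p.1 ^ 2 - p.2.1 ^ 2) / (4 * p.2.2)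
  have hg : ContinuousAt g (a', b', c') := by
    apply ContinuousAt.sub
    · apply ContinuousAt.div
      · fun_prop
      · fun_prop
      · exact hβ
    · apply ContinuousAt.div
      · fun_prop
      · fun_prop
      · show 4 * c' ≠ 0
        positivity
  have hβc : ContinuousAt (fun p : ℝ × ℝ × ℝ => p.1 ^ 2 - p.2.1 ^ 2) (a', b', c') := by fun_prop
  obtain ⟨δ₁, hδ₁, hcl₁⟩ := Metric.continuousAt_iff.mp hg 1 one_pos
  obtain ⟨δ₂, hδ₂, hcl₂⟩ := Metric.continuousAt_iff.mp hβc |a' ^ 2 - b' ^ 2| (abs_pos.mpr hβ)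
  -- H
  obtain ⟨H, hH⟩ := exists_rat_gt (1 + a' + b' + c' + 2 / a' + 2 / b')
  have h2a : 0 < 2 / a' := by positivity
  have h2b : 0 < 2 / b' := by positivity
  have hH1 : (1:ℚ) ≤ H := by
    have : (1:ℝ) ≤ H := by linarith
    exact_mod_cast this
  obtain ⟨Mq, hMq⟩ := exists_rat_gt (|M| + η + |g (a', b', c')| + 1)
  have hMq0 : (0:ℚ) ≤ Mq := by
    have : (0:ℝ) ≤ Mq := by
      have h1 := abs_nonneg M
      have h2 := abs_nonneg (g (a', b', c'))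
      linarith
    exact_mod_cast this
  obtain ⟨e, he0, heη⟩ := exists_rat_btwn (half_pos hη)
  have he0' : (0:ℚ) < e := by exact_mod_cast he0
  obtain ⟨N, hN⟩ := lemmaA hH1 hMq0 he0'
  obtain ⟨δ, hδ0, hδη, hδ1, hδa, hδb, hδc, hδd1, hδd2⟩ : ∃ δ : ℝ, 0 < δ ∧ δ ≤ η ∧ δ ≤ 1 ∧
      δ ≤ a' / 2 ∧ δ ≤ b' / 2 ∧ δ ≤ c' / 2 ∧ δ ≤ δ₁ ∧ δ ≤ δ₂ := by
    refine ⟨min η (min 1 (min (a' / 2) (min (b' / 2) (min (c' / 2) (min δ₁ δ₂))))), ?_, ?_⟩
    · simp only [lt_min_iff]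
      refine ⟨hη, one_pos, by positivity, by positivity, by positivity, hδ₁, hδ₂⟩
    · simp only [min_le_iff, le_refl, true_or, or_true, and_self]
  obtain ⟨a, b, c, hda, hdb, hdc, hr1, hr2, F, hF, hFG⟩ := lemmaB (a' := a') (b' := b') hc N hδ0
  have ha1 := abs_lt.mp hda
  have hb1 := abs_lt.mp hdb
  have hc1 := abs_lt.mp hdc
  have haR : a' / 2 < a := by linarith [ha1.1]
  have hbR : b' / 2 < b := by linarith [hb1.1]
  have hcR : c' / 2 < c := by linarith [hc1.1]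
  have haQ : (0:ℚ) < a := by
    have : (0:ℝ) < a := by linarith
    exact_mod_cast this
  have hbQ : (0:ℚ) < b := by
    have : (0:ℝ) < b := by linarith
    exact_mod_cast this
  have hcQ : (0:ℚ) < c := by
    have : (0:ℝ) < c := by linarith
    exact_mod_cast this
  have haH : a ≤ H := by
    have : (a:ℝ) ≤ H := by linarith [ha1.2]
    exact_mod_cast this
  have hbH : b ≤ H := by
    have : (b:ℝ) ≤ H := by linarith [hb1.2]
    exact_mod_cast this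
  have hcH : c ≤ H := by
    have : (c:ℝ) ≤ H := by linarith [hc1.2]
    exact_mod_cast this
  have haH' : 1 ≤ H * a := by
    have h1 : (2 / a') ≤ H := by linarith
    have : (1:ℝ) ≤ H * a := by
      calc (1:ℝ) = (2 / a') * (a' / 2) := by field_simp
        _ ≤ H * a := mul_le_mul h1 haR.le (by positivity) (by linarith)
    exact_mod_cast this
  have hbH' : 1 ≤ H * b := by
    have h1 : (2 / b') ≤ H := by linarith
    have : (1:ℝ) ≤ H * b := by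
      calc (1:ℝ) = (2 / b') * (b' / 2) := by field_simp
        _ ≤ H * b := mul_le_mul h1 hbR.le (by positivity) (by linarith)
    exact_mod_cast this
  have hdist : ∀ δ' : ℝ, δ ≤ δ' → dist ((a:ℝ), (b:ℝ), (c:ℝ)) (a', b', c') < δ' := by
    intro δ' hδ'
    rw [Prod.dist_eq, Prod.dist_eq]
    simp only [max_lt_iff, Real.dist_eq]
    exact ⟨hda.trans_le hδ', hdb.trans_le hδ', hdc.trans_le hδ'⟩
  have hβq : a ^ 2 - b ^ 2 ≠ 0 := by
    intro h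
    have h1 := hcl₂ (hdist δ₂ hδd2)
    have h2 : (a:ℝ) ^ 2 - (b:ℝ) ^ 2 = 0 := by exact_mod_cast h
    simp only [Real.dist_eq] at h1
    rw [h2, zero_sub, abs_neg] at h1
    exact lt_irrefl _ h1
  have hx₀ := good_start hcQ.ne' hβq
  have hx₀M : |a ^ 2 * c / (a ^ 2 - b ^ 2) - (a ^ 2 - b ^ 2) / (4 * c)| ≤ Mq := by
    have h1 := hcl₁ (hdist δ₁ hδd1)
    rw [Real.dist_eq] at h1
    have h2 : g ((a:ℝ), (b:ℝ), (c:ℝ)) =
        ((a ^ 2 * c / (a ^ 2 - b ^ 2) - (a ^ 2 - b ^ 2) / (4 * c) : ℚ) : ℝ) := by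
      simp only [g]; push_cast; ring
    rw [h2] at h1
    have h3 : |((a ^ 2 * c / (a ^ 2 - b ^ 2) - (a ^ 2 - b ^ 2) / (4 * c) : ℚ) : ℝ)| ≤ Mq := by
      have h4 := abs_sub_abs_le_abs_sub
        (((a ^ 2 * c / (a ^ 2 - b ^ 2) - (a ^ 2 - b ^ 2) / (4 * c) : ℚ) : ℝ)) (g (a', b', c'))
      have h5 := abs_nonneg M
      linarith
    exact_mod_cast h3
  refine ⟨a, b, c, hda.trans_le hδη, hdb.trans_le hδη, hdc.trans_le hδη, hr1, hr2, ?_⟩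
  intro y hy
  obtain ⟨y', hy'⟩ := exists_rat_near y (half_pos hη)
  have hy'M : |y'| ≤ Mq := by
    have h1 : |(y':ℝ)| ≤ Mq := by
      have h4 := abs_sub_abs_le_abs_sub (y':ℝ) y
      rw [abs_sub_comm] at hy'
      have h5 := le_abs_self M
      have h6 := abs_nonneg (g (a', b', c'))
      linarith
    exact_mod_cast h1
  obtain ⟨x, hx, hxy⟩ := hN a b c haQ hbQ hcQ haH hbH hcH haH' hbH' F hF hFG _ hx₀ hx₀M y' hy'M
  refine ⟨x, ?_, hx⟩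
  have h1 : |(x:ℝ) - y'| ≤ e := by exact_mod_cast hxy
  have h2 := abs_sub_le (x:ℝ) y' y
  rw [abs_sub_comm (y':ℝ) y] at h2
  linarith

/-- The dense core, for arbitrary real parameters. -/
theorem core (a' b' c' M : ℝ) {η : ℝ} (hη : 0 < η) :
    ∃ a b c : ℚ, |(a : ℝ) - a'| < η ∧ |(b : ℝ) - b'| < η ∧ |(c : ℝ) - c'| < η ∧
      (∃ r : ℚ, c ^ 2 + (a + b) ^ 2 = r ^ 2) ∧ (∃ r : ℚ, c ^ 2 + (a - b) ^ 2 = r ^ 2) ∧
      ∀ y : ℝ, |y| ≤ M → ∃ x : ℚ, |(x : ℝ) - y| < η ∧ Good a b c x := by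
  -- nonnegative parameters
  have pos : ∀ {a' b' c' : ℝ}, 0 ≤ a' → 0 ≤ b' → 0 ≤ c' → 
    ∃ a b c : ℚ, |(a : ℝ) - a'| < η ∧ |(b : ℝ) - b'| < η ∧ |(c : ℝ) - c'| < η ∧
      (∃ r : ℚ, c ^ 2 + (a + b) ^ 2 = r ^ 2) ∧ (∃ r : ℚ, c ^ 2 + (a - b) ^ 2 = r ^ 2) ∧
      ∀ y : ℝ, |y| ≤ M → ∃ x : ℚ, |(x : ℝ) - y| < η ∧ Good a b c x := by
    intro a' b' c' ha hb hc
    obtain ⟨b'', hb'', hbd, hne⟩ : ∃ b'' : ℝ, 0 < b'' ∧ |b'' - b'| ≤ η / 4 ∧ a' + η / 4 ≠ b'' := by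
      by_cases h : a' = b'
      · refine ⟨b' + η / 8, by linarith, ?_, ?_⟩
        · rw [add_sub_cancel_left, abs_of_pos (by linarith)]; linarith
        · rw [h]; intro h2; linarith
      · refine ⟨b' + η / 4, by linarith, ?_, ?_⟩
        · rw [add_sub_cancel_left, abs_of_pos (by linarith)]
        · intro h2; exact h (by linarith)
    obtain ⟨a, b, c, h1, h2, h3, h4, h5, h6⟩ := core_pos (a' := a' + η / 4) (b' := b'')
      (c' := c' + η / 4) (by linarith) hb'' (by linarith) hne M (half_pos hη)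
    refine ⟨a, b, c, ?_, ?_, ?_, h4, h5, ?_⟩
    · have := abs_lt.mp h1; rw [abs_lt]; constructor <;> linarith
    · have h7 := abs_lt.mp h2
      have h8 := abs_le.mp hbd
      rw [abs_lt]; constructor <;> linarith
    · have := abs_lt.mp h3; rw [abs_lt]; constructor <;> linarith
    · intro y hy
      obtain ⟨x, hx, hg⟩ := h6 y hy
      exact ⟨x, by linarith, hg⟩
  -- signs of a
  have sa : ∀ {a' b' c' : ℝ}, 0 ≤ b' → 0 ≤ c' → 
    ∃ a b c : ℚ, |(a : ℝ) - a'| < η ∧ |(b : ℝ) - b'| < η ∧ |(c : ℝ) - c'| < η ∧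
      (∃ r : ℚ, c ^ 2 + (a + b) ^ 2 = r ^ 2) ∧ (∃ r : ℚ, c ^ 2 + (a - b) ^ 2 = r ^ 2) ∧
      ∀ y : ℝ, |y| ≤ M → ∃ x : ℚ, |(x : ℝ) - y| < η ∧ Good a b c x := by
    intro a' b' c' hb hc
    rcases le_total 0 a' with ha | ha
    · exact pos ha hb hc
    · obtain ⟨a, b, c, h1, h2, h3, ⟨r, h4⟩, ⟨r', h5⟩, h6⟩ := pos (neg_nonneg.mpr ha) hb hc
      refine ⟨-a, b, c, ?_, h2, h3, ⟨r', by rw [← h5]; ring⟩, ⟨r, by rw [← h4]; ring⟩, ?_⟩
      · push_cast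
        rw [← abs_neg]
        have : -(-(a:ℝ) - a') = a - -a' := by ring
        rw [this]; exact h1
      · intro y hy
        obtain ⟨x, hx, ⟨u, hu⟩, hv⟩ := h6 y hy
        exact ⟨x, hx, ⟨u, by rw [← hu]; ring⟩, hv⟩
  have sb : ∀ {a' b' c' : ℝ}, 0 ≤ c' → 
    ∃ a b c : ℚ, |(a : ℝ) - a'| < η ∧ |(b : ℝ) - b'| < η ∧ |(c : ℝ) - c'| < η ∧
      (∃ r : ℚ, c ^ 2 + (a + b) ^ 2 = r ^ 2) ∧ (∃ r : ℚ, c ^ 2 + (a - b) ^ 2 = r ^ 2) ∧
      ∀ y : ℝ, |y| ≤ M → ∃ x : ℚ, |(x : ℝ) - y| < η ∧ Good a b c x := by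
    intro a' b' c' hc
    rcases le_total 0 b' with hb | hb
    · exact sa hb hc
    · obtain ⟨a, b, c, h1, h2, h3, ⟨r, h4⟩, ⟨r', h5⟩, h6⟩ := sa (a' := a') (neg_nonneg.mpr hb) hc
      refine ⟨a, -b, c, h1, ?_, h3, ⟨r', by rw [← h5]; ring⟩, ⟨r, by rw [← h4]; ring⟩, ?_⟩
      · push_cast
        rw [← abs_neg]
        have : -(-(b:ℝ) - b') = b - -b' := by ring
        rw [this]; exact h2
      · intro y hy
        obtain ⟨x, hx, hu, ⟨v, hv⟩⟩ := h6 y hy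
        exact ⟨x, hx, hu, ⟨v, by rw [← hv]; ring⟩⟩
  rcases le_total 0 c' with hc | hc
  · exact sb hc
  · obtain ⟨a, b, c, h1, h2, h3, ⟨r, h4⟩, ⟨r', h5⟩, h6⟩ := sb (a' := a') (b' := b') (neg_nonneg.mpr hc)
    refine ⟨a, b, -c, h1, h2, ?_, ⟨r, by rw [← h4]; ring⟩, ⟨r', by rw [← h5]; ring⟩, ?_⟩
    · push_cast
      rw [← abs_neg]
      have : -(-(c:ℝ) - c') = c - -c' := by ring
      rw [this]; exact h3
    · intro y hy
      obtain ⟨x, hx, ⟨u, hu⟩, ⟨v, hv⟩⟩ := h6 (-y) (by rwa [abs_neg])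
      refine ⟨-x, ?_, ⟨u, by rw [← hu]; ring⟩, ⟨v, by rw [← hv]; ring⟩⟩
      push_cast
      rw [← abs_neg]
      have : -(-(x:ℝ) - y) = x - -y := by ring
      rw [this]; exact hx

end Pool.Agent.H71R
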