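import Mathlib

set_option autoImplicit false

namespace Pool.Agent.H71R

/-- `x` is at rational distance from `(0,a)` and `(c,b)` when placed on the axis. -/
def Good (a b c x : ℚ) : Prop := (∃ u : ℚ, x ^ 2 + a ^ 2 = u ^ 2) ∧ ∃ v : ℚ, (x - c) ^ 2 + b ^ 2 = v ^ 2

/-- The plane cubic parametrising the good points. -/
def On (a b c t s : ℚ) : Prop :=
  t ≠ 0 ∧ s ≠ 0 ∧ a * s - a * t ^ 2 * s - b * t * s ^ 2 + b * t - 2 * c * t * s = 0

theorem On.good {a b c t s : ℚ} (h : On a b c t s) : Good a b c (a * (1 / t - t) / 2) := by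
  obtain ⟨ht, hs, h⟩ := h
  refine ⟨⟨a * (1 / t + t) / 2, ?_⟩, ⟨b * (s + 1 / s) / 2, ?_⟩⟩
  · field_simp
    ring
  · have h2 : a * (1 / t - t) / 2 - c = b * (s - 1 / s) / 2 := by
      field_simp
      linear_combination h
    rw [h2]
    field_simp
    ring

/-- the involution `s ↦ -1/s` -/
theorem On.flip {a b c t s : ℚ} (h : On a b c t s) : On a b c t (-1 / s) := by
  obtain ⟨ht, hs, h⟩ := h
  refine ⟨ht, ?_, ?_⟩
  · exact div_ne_zero (by norm_num) hs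
  · field_simp
    linear_combination (-1 : ℚ) * h

theorem On.neg {a b c t s : ℚ} (h : On a b c t s) : On a b c (-1 / t) (-1 / s) := by
  obtain ⟨ht, hs, h⟩ := h
  refine ⟨div_ne_zero (by norm_num) ht, div_ne_zero (by norm_num) hs, ?_⟩
  field_simp
  linear_combination h

theorem Good.point {a b c x : ℚ} (ha : 0 < a) (hb : 0 < b) (h : Good a b c x) :
    ∃ u v : ℚ, 0 < u ∧ 0 < v ∧ x ^ 2 + a ^ 2 = u ^ 2 ∧ (x - c) ^ 2 + b ^ 2 = v ^ 2 := by
  obtain ⟨⟨u, hu⟩, ⟨v, hv⟩⟩ := h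
  refine ⟨|u|, |v|, ?_, ?_, ?_, ?_⟩
  · apply abs_pos.mpr
    rintro rfl
    nlinarith [sq_nonneg x, mul_pos ha ha]
  · apply abs_pos.mpr
    rintro rfl
    nlinarith [sq_nonneg (x - c), mul_pos hb hb]
  · rw [sq_abs]; exact hu
  · rw [sq_abs]; exact hv

theorem on_of_uv {a b c x u v : ℚ} (ha : 0 < a) (hb : 0 < b) (hu0 : 0 < u) (hv0 : 0 < v)
    (hu : x ^ 2 + a ^ 2 = u ^ 2) (hv : (x - c) ^ 2 + b ^ 2 = v ^ 2) :
    On a b c ((u - x) / a) ((v + (x - c)) / b) ∧ 0 < (u - x) / a ∧ 0 < (v + (x - c)) / b ∧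
      x = a * (1 / ((u - x) / a) - (u - x) / a) / 2 := by
  have h1 : 0 < u - x := by
    have : |x| < u := by
      apply abs_lt_of_sq_lt_sq _ hu0.le
      nlinarith [mul_pos ha ha]
    linarith [le_abs_self x]
  have h2 : 0 < v + (x - c) := by
    have : |x - c| < v := by
      apply abs_lt_of_sq_lt_sq _ hv0.le
      nlinarith [mul_pos hb hb]
    linarith [neg_abs_le (x - c)]
  have ht : 0 < (u - x) / a := div_pos h1 ha
  have hs : 0 < (v + (x - c)) / b := div_pos h2 hb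
  have e1 : (u - x) * (u + x) = a ^ 2 := by linear_combination -hu
  have e2 : (v + (x - c)) * (v - (x - c)) = b ^ 2 := by linear_combination -hv
  refine ⟨⟨ht.ne', hs.ne', ?_⟩, ht, hs, ?_⟩
  · field_simp
    have : a ^ 2 * (v + (x - c)) - (u - x) ^ 2 * (v + (x - c)) - (u - x) * (v + (x - c)) ^ 2 +
      b ^ 2 * (u - x) - 2 * c * (u - x) * (v + (x - c)) = 0 := by
      rw [← e1, ← e2]; ring
    linear_combination this
  · field_simp
    linear_combination -hu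

/-- The third intersection point of a chord. -/
theorem third {a b c t₁ s₁ t₀ s₀ m k t₃ : ℚ} (h1 : On a b c t₁ s₁) (h0 : On a b c t₀ s₀)
    (ht : t₁ ≠ t₀) (hb : b ≠ 0) (hm1 : s₁ = m * t₁ + k) (hm0 : s₀ = m * t₀ + k)
    (ht3 : t₃ ≠ 0) (h3 : m * (a + b * m) * t₁ * t₀ * t₃ = a * k) :
    On a b c t₃ (m * t₃ + k) ∧
      m * (a + b * m) * (t₁ - t₀) * (t₁ - t₃) * (t₁ * s₁) =
        a * s₁ ^ 2 * (t₁ ^ 2 + 1) + m * b * t₁ ^ 2 * (s₁ ^ 2 + 1) := by
  obtain ⟨ht1, hs1, h1⟩ := h1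
  obtain ⟨ht0, hs0, h0⟩ := h0
  have hne : t₁ - t₀ ≠ 0 := sub_ne_zero.mpr ht
  have E1 : -(m * (a + b * m)) * (t₁ ^ 2 + t₁ * t₀ + t₀ ^ 2) -
      (a * k + 2 * b * m * k + 2 * c * m) * (t₁ + t₀) + (a * m - b * k ^ 2 + b - 2 * c * k) = 0 := by
    apply mul_left_cancel₀ hne
    subst hm1 hm0
    linear_combination h1 - h0
  have E2 : -(m * (a + b * m)) * (t₁ * t₀) * (t₁ + t₀) -
      (a * k + 2 * b * m * k + 2 * c * m) * (t₁ * t₀) - a * k = 0 := by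
    apply mul_left_cancel₀ hne
    subst hm1 hm0
    linear_combination t₀ * h1 - t₁ * h0
  have h10 : t₁ * t₀ ≠ 0 := mul_ne_zero ht1 ht0
  have hP : a * (m * t₃ + k) - a * t₃ ^ 2 * (m * t₃ + k) - b * t₃ * (m * t₃ + k) ^ 2 + b * t₃ -
      2 * c * t₃ * (m * t₃ + k) = 0 := by
    apply mul_left_cancel₀ h10
    linear_combination (t₃ ^ 2 - (t₁ + t₀) * t₃) * E2 + t₁ * t₀ * t₃ * E1 -
      (t₃ - t₁) * (t₃ - t₀) * h3
  have hQ : -(m * (a + b * m)) * (3 * t₁ ^ 2) - 2 * (a * k + 2 * b * m * k + 2 * c * m) * t₁ +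
      (a * m - b * k ^ 2 + b - 2 * c * k) = -(m * (a + b * m)) * (t₁ - t₀) * (t₁ - t₃) := by
    apply mul_left_cancel₀ h10
    linear_combination (2 * t₁ - (t₁ + t₀)) * E2 + t₁ * t₀ * E1 - (t₁ - t₀) * h3
  refine ⟨⟨ht3, ?_, hP⟩, ?_⟩
  · intro h
    rw [h] at hP
    have : b * t₃ = 0 := by linear_combination hP
    rcases mul_eq_zero.mp this with h | h
    · exact hb h
    · exact ht3 h
  · subst hm1
    linear_combination (t₁ * (m * t₁ + k)) * hQ - ((m * t₁ + k) + m * t₁) * h1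

end Pool.Agent.H71R
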