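import Pool.Agent.H71R.Geom

set_option autoImplicit false

open scoped RealInnerProductSpace Topology
open EuclideanGeometry

namespace Pool.Agent.H71R

theorem line_case {ι : Type*} [Finite ι] (p : ι → EuclideanSpace ℝ (Fin 2))
    {x y u v : EuclideanSpace ℝ (Fin 2)} (hxy : x ≠ y)
    (h : ∀ i, p i ∈ line[ℝ, x, y] ∨ p i = u ∨ p i = reflection line[ℝ, x, y] u ∨
      p i = v ∨ p i = reflection line[ℝ, x, y] v) {ε : ℝ} (hε : 0 < ε) :
    ∃ q : ι → EuclideanSpace ℝ (Fin 2), (∀ i, dist (p i) (q i) < ε) ∧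
      ∀ i j, ∃ r : ℚ, dist (q i) (q j) = r := by
  have hd : ‖y - x‖ ≠ 0 := norm_ne_zero_iff.mpr (sub_ne_zero.mpr hxy.symm)
  obtain ⟨d, hdd⟩ : ∃ d : ℝ, d = ‖y - x‖ := ⟨_, rfl⟩
  rw [← hdd] at hd
  have hd0 : 0 < d := lt_of_le_of_ne (by rw [hdd]; exact norm_nonneg _) hd.symm
  obtain ⟨e₁, he₁⟩ : ∃ e₁ : EuclideanSpace ℝ (Fin 2), e₁ = (1 / d) • (y - x) := ⟨_, rfl⟩
  have h1 : ‖e₁‖ = 1 := by
    rw [he₁, norm_smul, ← hdd, Real.norm_eq_abs, abs_of_pos (by positivity)]
    field_simp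
  obtain ⟨e₂, h2, h12, hspan⟩ := exists_frame e₁ h1
  have hyx : y - x = d • e₁ := by
    rw [he₁, smul_smul]
    have : d * (1 / d) = 1 := by field_simp
    rw [this, one_smul]
  -- coordinates
  obtain ⟨Xu, Yu, hu⟩ := hspan (u - x)
  obtain ⟨Xv, Yv, hv⟩ := hspan (v - x)
  have hmem : ∀ X : ℝ, x + X • e₁ ∈ line[ℝ, x, y] := by
    intro X
    rw [mem_affineSpan_pair_iff_exists_lineMap_eq]
    refine ⟨X / d, ?_⟩
    rw [AffineMap.lineMap_apply, vsub_eq_sub, vadd_eq_add, hyx, smul_smul, div_mul_cancel₀ _ hd, add_comm]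
  have horth : ∀ Y : ℝ, Y • e₂ ∈ (line[ℝ, x, y]).directionᗮ := by
    intro Y
    rw [Submodule.mem_orthogonal]
    intro w hw
    rw [direction_affineSpan, mem_vectorSpan_pair] at hw
    obtain ⟨r, rfl⟩ := hw
    have : x -ᵥ y = -(d • e₁) := by rw [← hyx, vsub_eq_sub]; abel
    rw [this, inner_smul_left, inner_neg_left, inner_smul_left, inner_smul_right, h12]
    simp
  have hrefl : ∀ X Y : ℝ, reflection line[ℝ, x, y] (x + X • e₁ + Y • e₂) = x + X • e₁ + (-Y) • e₂ := by
    intro X Y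
    have := reflection_orthogonal_vadd (hmem X) (horth Y)
    rw [vadd_eq_add, vadd_eq_add] at this
    rw [add_comm (x + X • e₁) (Y • e₂), this, neg_smul, add_comm]
  have hu' : u = x + Xu • e₁ + Yu • e₂ := by
    rw [add_assoc, ← hu]; abel
  have hv' : v = x + Xv • e₁ + Yv • e₂ := by
    rw [add_assoc, ← hv]; abel
  refine core_line p (o := x + Xu • e₁) (e₁ := e₁) (e₂ := e₂) h1 h2 h12 (a' := Yu) (b' := Yv)
    (c' := Xv - Xu) ?_ hε
  intro i
  rcases h i with hi | hi | hi | hi | hi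
  · left
    rw [mem_affineSpan_pair_iff_exists_lineMap_eq] at hi
    obtain ⟨r, hr⟩ := hi
    refine ⟨r * d - Xu, ?_⟩
    rw [← hr, AffineMap.lineMap_apply, vsub_eq_sub, vadd_eq_add, hyx]
    unfold Fr
    rw [smul_smul, sub_smul, zero_smul]
    abel
  · right; left
    rw [hi, hu']
    unfold Fr
    rw [zero_smul, add_zero]
  · right; right; left
    rw [hi, hu', hrefl]
    unfold Fr
    rw [zero_smul, add_zero]
  · right; right; right; left
    rw [hi, hv']
    unfold Fr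
    rw [sub_smul]
    abel
  · right; right; right; right
    rw [hi, hv', hrefl]
    unfold Fr
    rw [sub_smul]
    abel

/-- passing back through an inversion -/
theorem transfer {ι : Type*} [Finite ι] {E : Type*} [NormedAddCommGroup E] [InnerProductSpace ℝ E]
    (p : ι → E) (o : E) (ho : ∀ i, p i ≠ o)
    (h : ∀ δ : ℝ, 0 < δ → ∃ q : Option ι → E, dist o (q none) < δ ∧
      (∀ i, dist (inversion o 1 (p i)) (q (some i)) < δ) ∧ ∀ i j, ∃ r : ℚ, dist (q i) (q j) = r)
    {ε : ℝ} (hε : 0 < ε) :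
    ∃ q : ι → E, (∀ i, dist (p i) (q i) < ε) ∧ ∀ i j, ∃ r : ℚ, dist (q i) (q j) = r := by
  have hinv : ∀ i, inversion o 1 (p i) ≠ o := by
    intro i hi
    exact ho i ((inversion_eq_center one_ne_zero).mp hi)
  have key : ∀ i, ∃ δ : ℝ, 0 < δ ∧ ∀ c x : E, dist o c < δ → dist (inversion o 1 (p i)) x < δ →
      x ≠ c ∧ dist (p i) (inversion c 1 x) < ε := by
    intro i
    have hc : ContinuousAt (fun y : E × E => inversion y.1 1 y.2) (o, inversion o 1 (p i)) := by
      apply ContinuousAt.inversion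
      · exact continuousAt_fst
      · exact continuousAt_const
      · exact continuousAt_snd
      · exact hinv i
    obtain ⟨δ, hδ, hcl⟩ := Metric.continuousAt_iff.mp hc ε hε
    have hpos : 0 < dist (inversion o 1 (p i)) o := dist_pos.mpr (hinv i)
    refine ⟨min δ (dist (inversion o 1 (p i)) o / 2), lt_min hδ (by linarith), ?_⟩
    intro c x hc hx
    rw [lt_min_iff] at hc hx
    constructor
    · rintro rfl
      have := dist_triangle (inversion o 1 (p i)) x o
      rw [dist_comm x o] at this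
      linarith [hc.2, hx.2]
    · have h1 := hcl (x := (c, x)) (by
        rw [Prod.dist_eq, max_lt_iff]
        exact ⟨by rw [dist_comm]; exact hc.1, by rw [dist_comm]; exact hx.1⟩)
      have h2 : inversion o 1 (inversion o 1 (p i)) = p i := inversion_inversion o one_ne_zero (p i)
      simp only [h2] at h1
      rw [dist_comm]; exact h1
  choose δ hδ hcl using key
  have hev : ∀ᶠ d in 𝓝[>] (0:ℝ), ∀ i, d < δ i := by
    rw [Filter.eventually_all]
    intro i
    exact nhdsWithin_le_nhds (Iio_mem_nhds (hδ i))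
  obtain ⟨d, hd, hd0⟩ := (hev.and self_mem_nhdsWithin).exists
  have hd0' : 0 < d := hd0
  obtain ⟨q, hq0, hq, hrat⟩ := h d hd0'
  have hne : ∀ i, q (some i) ≠ q none := fun i =>
    (hcl i (q none) (q (some i)) (hq0.trans (hd i)) ((hq i).trans (hd i))).1
  refine ⟨fun i => inversion (q none) 1 (q (some i)), ?_, ?_⟩
  · intro i
    exact (hcl i (q none) (q (some i)) (hq0.trans (hd i)) ((hq i).trans (hd i))).2
  · intro i j
    obtain ⟨r1, h1⟩ := hrat (some i) none
    obtain ⟨r2, h2⟩ := hrat (some j) none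
    obtain ⟨r3, h3⟩ := hrat (some i) (some j)
    refine ⟨1 ^ 2 / (r1 * r2) * r3, ?_⟩
    rw [dist_inversion_inversion (hne i) (hne j), h1, h2, h3]
    push_cast
    ring

theorem inv_Fr {E : Type*} [NormedAddCommGroup E] [InnerProductSpace ℝ E] {o e₁ e₂ : E}
    (h1 : ‖e₁‖ = 1) (h2 : ‖e₂‖ = 1) (h12 : ⟪e₁, e₂⟫ = 0) (R X₀ Y₀ X Y : ℝ) :
    inversion (Fr o e₁ e₂ X₀ Y₀) R (Fr o e₁ e₂ X Y) =
      Fr o e₁ e₂ (X₀ + R ^ 2 / ((X - X₀) ^ 2 + (Y - Y₀) ^ 2) * (X - X₀))
        (Y₀ + R ^ 2 / ((X - X₀) ^ 2 + (Y - Y₀) ^ 2) * (Y - Y₀)) := by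
  rw [inversion, div_pow, dist_Fr h1 h2 h12, vsub_eq_sub, vadd_eq_add]
  have : Fr o e₁ e₂ X Y - Fr o e₁ e₂ X₀ Y₀ = (X - X₀) • e₁ + (Y - Y₀) • e₂ := by
    unfold Fr; rw [sub_smul, sub_smul]; abel
  rw [this]
  unfold Fr
  rw [smul_add, smul_smul, smul_smul, add_smul, add_smul]
  abel

theorem circle_case {ι : Type*} [Finite ι] (p : ι → EuclideanSpace ℝ (Fin 2))
    {z w : EuclideanSpace ℝ (Fin 2)} {R : ℝ} (hR : 0 < R)
    (h : ∀ i, dist (p i) z = R ∨ p i = z ∨ p i = w ∨ p i = inversion z R w) {ε : ℝ} (hε : 0 < ε) :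
    ∃ q : ι → EuclideanSpace ℝ (Fin 2), (∀ i, dist (p i) (q i) < ε) ∧
      ∀ i j, ∃ r : ℚ, dist (q i) (q j) = r := by
  -- choose the centre of inversion on the circle
  obtain ⟨o, hoz, how, hop⟩ : ∃ o : EuclideanSpace ℝ (Fin 2), dist o z = R ∧ o ≠ w ∧ ∀ i, p i ≠ o := by
    have hrank : 1 < Module.rank ℝ (EuclideanSpace ℝ (Fin 2)) := by
      rw [← Module.finrank_eq_rank, finrank_euclideanSpace_fin]
      exact_mod_cast (by norm_num : 1 < 2)
    have hinf : (Metric.sphere z R).Infinite := by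
      apply (isPreconnected_sphere hrank z R).infinite_of_nontrivial
      obtain ⟨e, he⟩ : ∃ e : EuclideanSpace ℝ (Fin 2), ‖e‖ = 1 := ⟨!₂[1, 0], by
        rw [EuclideanSpace.norm_eq, Fin.sum_univ_two]; simp⟩
      refine ⟨z + R • e, ?_, z - R • e, ?_, ?_⟩
      · rw [mem_sphere_iff_norm, add_sub_cancel_left, norm_smul, he, mul_one, Real.norm_eq_abs,
          abs_of_pos hR]
      · rw [mem_sphere_iff_norm, sub_sub_cancel_left, norm_neg, norm_smul, he, mul_one,
          Real.norm_eq_abs, abs_of_pos hR]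
      · intro heq
        have h3 : (2 * R) • e = 0 := by
          have : (2 * R) • e = (z + R • e) - (z - R • e) := by rw [two_mul, add_smul]; abel
          rw [this, heq, sub_self]
        rw [smul_eq_zero] at h3
        rcases h3 with h3 | h3
        · linarith
        · rw [h3, norm_zero] at he; exact zero_ne_one he
    have hfin : (insert w (Set.range p)).Finite := (Set.finite_range p).insert w
    obtain ⟨o, ho, hno⟩ := (hinf.sdiff hfin).nonempty
    refine ⟨o, ho, ?_, ?_⟩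
    · rintro rfl; exact hno (Set.mem_insert _ _)
    · intro i hi; exact hno (Set.mem_insert_of_mem _ ⟨i, hi⟩)
  -- frame
  obtain ⟨e₂, he₂⟩ : ∃ e₂ : EuclideanSpace ℝ (Fin 2), e₂ = (1 / R) • (z - o) := ⟨_, rfl⟩
  have h2 : ‖e₂‖ = 1 := by
    rw [he₂, norm_smul, ← dist_eq_norm, dist_comm, hoz, Real.norm_eq_abs, abs_of_pos (by positivity)]
    field_simp
  obtain ⟨e₁, h1, h21, hspan⟩ := exists_frame e₂ h2
  have h12 : ⟪e₁, e₂⟫ = 0 := by rw [real_inner_comm]; exact h21
  have hz : z = Fr o e₁ e₂ 0 R := by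
    unfold Fr
    rw [he₂, smul_smul]
    have : R * (1 / R) = 1 := by field_simp
    rw [this, one_smul, zero_smul]
    abel
  have ho : o = Fr o e₁ e₂ 0 0 := by unfold Fr; simp
  have hco : ∀ u : EuclideanSpace ℝ (Fin 2), ∃ X Y : ℝ, u = Fr o e₁ e₂ X Y := by
    intro u
    obtain ⟨Y, X, hu⟩ := hspan (u - o)
    refine ⟨X, Y, ?_⟩
    unfold Fr
    rw [add_assoc, add_comm (X • e₁), ← hu]
    abel
  -- inversion in the frame
  have hinv : ∀ X Y : ℝ, inversion o 1 (Fr o e₁ e₂ X Y) =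
      Fr o e₁ e₂ (X / (X ^ 2 + Y ^ 2)) (Y / (X ^ 2 + Y ^ 2)) := by
    intro X Y
    have h3 := inv_Fr (o := o) h1 h2 h12 1 0 0 X Y
    rw [← ho] at h3
    rw [h3]
    congr 1
    · simp; ring
    · simp; ring
  have hN : ∀ X Y : ℝ, Fr o e₁ e₂ X Y ≠ o → X ^ 2 + Y ^ 2 ≠ 0 := by
    intro X Y hne h0
    apply hne
    have hX : X = 0 := by nlinarith [sq_nonneg X, sq_nonneg Y]
    have hY : Y = 0 := by nlinarith [sq_nonneg X, sq_nonneg Y]
    rw [hX, hY, ← ho]
  -- the shifted frame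
  obtain ⟨o', ho'⟩ : ∃ o' : EuclideanSpace ℝ (Fin 2), o' = o + (1 / (2 * R)) • e₂ := ⟨_, rfl⟩
  have hshift : ∀ X Y : ℝ, Fr o e₁ e₂ X Y = Fr o' e₁ e₂ X (Y - 1 / (2 * R)) := by
    intro X Y
    unfold Fr
    rw [ho', sub_smul]
    abel
  obtain ⟨Xw, Yw, hw⟩ := hco w
  have hNw : Xw ^ 2 + Yw ^ 2 ≠ 0 := by
    apply hN
    rw [← hw]; exact how.symm
  -- the circle and the centre
  have hcirc : ∀ i, dist (p i) z = R →
      ∃ X : ℝ, inversion o 1 (p i) = Fr o' e₁ e₂ X 0 := by
    intro i hi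
    obtain ⟨X, Y, hXY⟩ := hco (p i)
    have hN' : X ^ 2 + Y ^ 2 ≠ 0 := by
      apply hN; rw [← hXY]; exact hop i
    have h3 := dist_Fr (o := o) h1 h2 h12 X Y 0 R
    rw [← hXY, ← hz, hi] at h3
    refine ⟨X / (X ^ 2 + Y ^ 2), ?_⟩
    rw [hXY, hinv, hshift]
    congr 1
    have h4 : X ^ 2 + Y ^ 2 = 2 * R * Y := by linarith
    have hY : Y ≠ 0 := by
      rintro rfl
      apply hN'
      rw [h4]; ring
    rw [h4]
    field_simp
    ring
  have hcen : inversion o 1 z = Fr o' e₁ e₂ 0 (1 / (2 * R)) := by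
    rw [hz, hinv, hshift]
    congr 1
    · simp
    · field_simp
      ring
  have hnone : o = Fr o' e₁ e₂ 0 (-(1 / (2 * R))) := by
    conv_lhs => rw [ho]
    rw [hshift]
    congr 1
    ring
  apply transfer p o hop _ hε
  intro δ hδ
  by_cases hwz : w = z
  · -- degenerate case
    have hall : ∀ i, dist (p i) z = R ∨ p i = z := by
      intro i
      rcases h i with hi | hi | hi | hi
      · exact Or.inl hi
      · exact Or.inr hi
      · right; rw [hi, hwz]
      · right; rw [hi, hwz, inversion_self]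
    obtain ⟨q, hq, hrat⟩ := core_line (ι := Option ι)
      (fun i => i.elim o (fun i => inversion o 1 (p i))) (o := o') h1 h2 h12
      (a' := 1 / (2 * R)) (b' := 0) (c' := 0) (by
        rintro (_ | i)
        · right; right; left
          exact hnone
        · rcases hall i with hi | hi
          · left; exact hcirc i hi
          · right; left
            show inversion o 1 (p i) = _
            rw [hi]; exact hcen) hδ
    exact ⟨q, hq none, fun i => hq (some i), hrat⟩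
  · have hD : Xw ^ 2 + (Yw - R) ^ 2 ≠ 0 := by
      intro h0
      apply hwz
      have hX : Xw = 0 := by nlinarith [sq_nonneg Xw, sq_nonneg (Yw - R)]
      have hY : Yw - R = 0 := by nlinarith [sq_nonneg Xw, sq_nonneg (Yw - R)]
      rw [hw, hz, hX, sub_eq_zero.mp hY]
    have hw1 : inversion o 1 w = Fr o' e₁ e₂ (Xw / (Xw ^ 2 + Yw ^ 2))
        (Yw / (Xw ^ 2 + Yw ^ 2) - 1 / (2 * R)) := by
      rw [hw, hinv, hshift]
    have hw2 : inversion o 1 (inversion z R w) = Fr o' e₁ e₂ (Xw / (Xw ^ 2 + Yw ^ 2))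
        (-(Yw / (Xw ^ 2 + Yw ^ 2) - 1 / (2 * R))) := by
      rw [hw, hz, inv_Fr h1 h2 h12, hinv, hshift]
      obtain ⟨N, hNdef⟩ : ∃ N : ℝ, N = Xw ^ 2 + Yw ^ 2 := ⟨_, rfl⟩
      obtain ⟨D, hDdef⟩ : ∃ D : ℝ, D = Xw ^ 2 + (Yw - R) ^ 2 := ⟨_, rfl⟩
      have hrel : D = N - 2 * R * Yw + R ^ 2 := by rw [hDdef, hNdef]; ring
      rw [← hNdef] at hNw ⊢
      rw [← hDdef] at hD
      simp only [sub_zero, zero_add]
      rw [← hDdef]
      have hnorm : (R ^ 2 / D * Xw) ^ 2 + (R + R ^ 2 / D * (Yw - R)) ^ 2 = R ^ 2 * N / D := by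
        field_simp
        rw [hrel, hNdef]
        ring
      rw [hnorm]
      congr 1
      · field_simp
      · field_simp
        rw [hrel]
        ring
    obtain ⟨q, hq, hrat⟩ := core_line (ι := Option ι)
      (fun i => i.elim o (fun i => inversion o 1 (p i))) (o := o') h1 h2 h12
      (a' := 1 / (2 * R)) (b' := Yw / (Xw ^ 2 + Yw ^ 2) - 1 / (2 * R))
      (c' := Xw / (Xw ^ 2 + Yw ^ 2)) (by
        rintro (_ | i)
        · right; right; left
          exact hnone
        · rcases h i with hi | hi | hi | hi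
          · left; exact hcirc i hi
          · right; left
            show inversion o 1 (p i) = _
            rw [hi]; exact hcen
          · right; right; right; left
            show inversion o 1 (p i) = _
            rw [hi]; exact hw1
          · right; right; right; right
            show inversion o 1 (p i) = _
            rw [hi]; exact hw2) hδ
    exact ⟨q, hq none, fun i => hq (some i), hrat⟩

end Pool.Agent.H71R
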