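import Pool.Agent.H71R.Core

set_option autoImplicit false

open scoped RealInnerProductSpace

namespace Pool.Agent.H71R

/-- rational coordinates of a point of the approximating configuration -/
def T (a b c x y : ℚ) : Prop :=
  (y = 0 ∧ Good a b c x) ∨ (x = 0 ∧ y = a) ∨ (x = 0 ∧ y = -a) ∨ (x = c ∧ y = b) ∨ (x = c ∧ y = -b)

theorem T_rat {a b c x y x' y' : ℚ} (h1 : ∃ r : ℚ, c ^ 2 + (a + b) ^ 2 = r ^ 2)
    (h2 : ∃ r : ℚ, c ^ 2 + (a - b) ^ 2 = r ^ 2) (h : T a b c x y) (h' : T a b c x' y') :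
    ∃ r : ℚ, (x - x') ^ 2 + (y - y') ^ 2 = r ^ 2 := by
  obtain ⟨p, hp⟩ := h1
  obtain ⟨q, hq⟩ := h2
  rcases h with ⟨rfl, ⟨u, hu⟩, ⟨v, hv⟩⟩ | ⟨hx, hy⟩ | ⟨hx, hy⟩ | ⟨hx, hy⟩ | ⟨hx, hy⟩ <;>
  rcases h' with ⟨rfl, ⟨u', hu'⟩, ⟨v', hv'⟩⟩ | ⟨hx', hy'⟩ | ⟨hx', hy'⟩ | ⟨hx', hy'⟩ | ⟨hx', hy'⟩
  · exact ⟨x - x', by ring⟩
  · exact ⟨u, by rw [hx', hy']; linear_combination hu⟩
  · exact ⟨u, by rw [hx', hy']; linear_combination hu⟩
  · exact ⟨v, by rw [hx', hy']; linear_combination hv⟩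
  · exact ⟨v, by rw [hx', hy']; linear_combination hv⟩
  · exact ⟨u', by rw [hx, hy]; linear_combination hu'⟩
  · exact ⟨0, by rw [hx, hy, hx', hy']; ring⟩
  · exact ⟨2 * a, by rw [hx, hy, hx', hy']; ring⟩
  · exact ⟨q, by rw [hx, hy, hx', hy']; linear_combination hq⟩
  · exact ⟨p, by rw [hx, hy, hx', hy']; linear_combination hp⟩
  · exact ⟨u', by rw [hx, hy]; linear_combination hu'⟩
  · exact ⟨2 * a, by rw [hx, hy, hx', hy']; ring⟩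
  · exact ⟨0, by rw [hx, hy, hx', hy']; ring⟩
  · exact ⟨p, by rw [hx, hy, hx', hy']; linear_combination hp⟩
  · exact ⟨q, by rw [hx, hy, hx', hy']; linear_combination hq⟩
  · exact ⟨v', by rw [hx, hy]; linear_combination hv'⟩
  · exact ⟨q, by rw [hx, hy, hx', hy']; linear_combination hq⟩
  · exact ⟨p, by rw [hx, hy, hx', hy']; linear_combination hp⟩
  · exact ⟨0, by rw [hx, hy, hx', hy']; ring⟩
  · exact ⟨2 * b, by rw [hx, hy, hx', hy']; ring⟩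
  · exact ⟨v', by rw [hx, hy]; linear_combination hv'⟩
  · exact ⟨p, by rw [hx, hy, hx', hy']; linear_combination hp⟩
  · exact ⟨q, by rw [hx, hy, hx', hy']; linear_combination hq⟩
  · exact ⟨2 * b, by rw [hx, hy, hx', hy']; ring⟩
  · exact ⟨0, by rw [hx, hy, hx', hy']; ring⟩

variable {E : Type*} [NormedAddCommGroup E] [InnerProductSpace ℝ E]

/-- point with coordinates `(X,Y)` in the frame `(o,e₁,e₂)` -/
def Fr (o e₁ e₂ : E) (X Y : ℝ) : E := o + X • e₁ + Y • e₂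

theorem dist_Fr {o e₁ e₂ : E} (h1 : ‖e₁‖ = 1) (h2 : ‖e₂‖ = 1) (h12 : ⟪e₁, e₂⟫ = 0) (X Y X' Y' : ℝ) :
    dist (Fr o e₁ e₂ X Y) (Fr o e₁ e₂ X' Y') ^ 2 = (X - X') ^ 2 + (Y - Y') ^ 2 := by
  rw [dist_eq_norm]
  have : Fr o e₁ e₂ X Y - Fr o e₁ e₂ X' Y' = (X - X') • e₁ + (Y - Y') • e₂ := by
    unfold Fr; rw [sub_smul, sub_smul]; abel
  rw [this, norm_add_sq_real, norm_smul, norm_smul, h1, h2, inner_smul_left, inner_smul_right, h12]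
  simp

theorem dist_Fr_le {o e₁ e₂ : E} (h1 : ‖e₁‖ = 1) (h2 : ‖e₂‖ = 1) (X Y X' Y' : ℝ) :
    dist (Fr o e₁ e₂ X Y) (Fr o e₁ e₂ X' Y') ≤ |X - X'| + |Y - Y'| := by
  rw [dist_eq_norm]
  have : Fr o e₁ e₂ X Y - Fr o e₁ e₂ X' Y' = (X - X') • e₁ + (Y - Y') • e₂ := by
    unfold Fr; rw [sub_smul, sub_smul]; abel
  rw [this]
  refine (norm_add_le _ _).trans ?_
  rw [norm_smul, norm_smul, h1, h2]
  simp

theorem core_line {ι : Type*} [Finite ι] (p : ι → E) {o e₁ e₂ : E} (h1 : ‖e₁‖ = 1) (h2 : ‖e₂‖ = 1)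
    (h12 : ⟪e₁, e₂⟫ = 0) {a' b' c' : ℝ}
    (h : ∀ i, (∃ X : ℝ, p i = Fr o e₁ e₂ X 0) ∨ p i = Fr o e₁ e₂ 0 a' ∨ p i = Fr o e₁ e₂ 0 (-a') ∨
      p i = Fr o e₁ e₂ c' b' ∨ p i = Fr o e₁ e₂ c' (-b')) {ε : ℝ} (hε : 0 < ε) :
    ∃ q : ι → E, (∀ i, dist (p i) (q i) < ε) ∧ ∀ i j, ∃ r : ℚ, dist (q i) (q j) = r := by
  classical
  have := Fintype.ofFinite ι
  -- bound for the axis coordinates
  obtain ⟨M, hM⟩ : ∃ M : ℝ, ∀ i, ∀ X : ℝ, p i = Fr o e₁ e₂ X 0 → |X| ≤ M := by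
    refine ⟨∑ i, dist (p i) o, ?_⟩
    intro i X hX
    have e : dist (p i) o = |X| := by
      rw [hX, dist_eq_norm]
      unfold Fr
      rw [zero_smul, add_zero, add_sub_cancel_left, norm_smul, h1, mul_one, Real.norm_eq_abs]
    rw [← e]
    exact Finset.single_le_sum (f := fun i => dist (p i) o) (fun i _ => dist_nonneg)
      (Finset.mem_univ i)
  obtain ⟨a, b, c, hda, hdb, hdc, hr1, hr2, hdense⟩ := core a' b' c' M (half_pos hε)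
  have key : ∀ i, ∃ x y : ℚ, T a b c x y ∧ dist (p i) (Fr o e₁ e₂ x y) < ε := by
    intro i
    rcases h i with ⟨X, hX⟩ | hX | hX | hX | hX
    · obtain ⟨x, hx, hg⟩ := hdense X (hM i X hX)
      refine ⟨x, 0, Or.inl ⟨rfl, hg⟩, ?_⟩
      rw [hX]
      refine (dist_Fr_le h1 h2 _ _ _ _).trans_lt ?_
      rw [abs_sub_comm] at hx
      simp only [Rat.cast_zero, sub_zero, abs_zero, add_zero]
      linarith
    · refine ⟨0, a, Or.inr (Or.inl ⟨rfl, rfl⟩), ?_⟩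
      rw [hX]
      refine (dist_Fr_le h1 h2 _ _ _ _).trans_lt ?_
      rw [abs_sub_comm] at hda
      simp only [Rat.cast_zero, sub_zero, abs_zero, zero_add]
      linarith
    · refine ⟨0, -a, Or.inr (Or.inr (Or.inl ⟨rfl, rfl⟩)), ?_⟩
      rw [hX]
      refine (dist_Fr_le h1 h2 _ _ _ _).trans_lt ?_
      have : -a' - ((-a : ℚ) : ℝ) = a - a' := by push_cast; ring
      rw [this]
      simp only [Rat.cast_zero, sub_zero, abs_zero, zero_add]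
      linarith
    · refine ⟨c, b, Or.inr (Or.inr (Or.inr (Or.inl ⟨rfl, rfl⟩))), ?_⟩
      rw [hX]
      refine (dist_Fr_le h1 h2 _ _ _ _).trans_lt ?_
      rw [abs_sub_comm] at hdb hdc
      linarith
    · refine ⟨c, -b, Or.inr (Or.inr (Or.inr (Or.inr ⟨rfl, rfl⟩))), ?_⟩
      rw [hX]
      refine (dist_Fr_le h1 h2 _ _ _ _).trans_lt ?_
      have : -b' - ((-b : ℚ) : ℝ) = b - b' := by push_cast; ring
      rw [this]
      rw [abs_sub_comm] at hdc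
      linarith
  choose x y hT hd using key
  refine ⟨fun i => Fr o e₁ e₂ (x i) (y i), hd, ?_⟩
  intro i j
  obtain ⟨r, hr⟩ := T_rat hr1 hr2 (hT i) (hT j)
  refine ⟨|r|, ?_⟩
  have e := dist_Fr (o := o) h1 h2 h12 (x i) (y i) (x j) (y j)
  have e2 : dist (Fr o e₁ e₂ (x i) (y i)) (Fr o e₁ e₂ (x j) (y j)) ^ 2 = ((|r| : ℚ) : ℝ) ^ 2 := by
    rw [e]
    have : ((x i : ℝ) - x j) ^ 2 + ((y i : ℝ) - y j) ^ 2 = ((|r| ^ 2 : ℚ) : ℝ) := by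
      rw [sq_abs, ← hr]; push_cast; ring
    rw [this]; push_cast; ring
  have h5 : (0:ℝ) ≤ ((|r| : ℚ) : ℝ) := by
    have : (0:ℚ) ≤ |r| := abs_nonneg r
    exact_mod_cast this
  exact (sq_eq_sq₀ dist_nonneg h5).mp e2

/-- the 2D plane: rotated frame vector -/
theorem exists_frame (e₁ : EuclideanSpace ℝ (Fin 2)) (h1 : ‖e₁‖ = 1) :
    ∃ e₂ : EuclideanSpace ℝ (Fin 2), ‖e₂‖ = 1 ∧ ⟪e₁, e₂⟫ = 0 ∧
      ∀ w : EuclideanSpace ℝ (Fin 2), ∃ X Y : ℝ, w = X • e₁ + Y • e₂ := by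
  have hsq : (e₁ 0) ^ 2 + (e₁ 1) ^ 2 = 1 := by
    have := EuclideanSpace.norm_sq_eq e₁
    rw [h1, Fin.sum_univ_two] at this
    simp only [Real.norm_eq_abs, sq_abs] at this
    linarith
  refine ⟨!₂[-(e₁ 1), e₁ 0], ?_, ?_, ?_⟩
  · have := EuclideanSpace.norm_sq_eq (!₂[-(e₁ 1), e₁ 0] : EuclideanSpace ℝ (Fin 2))
    rw [Fin.sum_univ_two] at this
    simp only [Real.norm_eq_abs, sq_abs] at this
    have h2 : ‖(!₂[-(e₁ 1), e₁ 0] : EuclideanSpace ℝ (Fin 2))‖ ^ 2 = 1 := by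
      rw [this]
      simp
      linarith
    have h3 := norm_nonneg (!₂[-(e₁ 1), e₁ 0] : EuclideanSpace ℝ (Fin 2))
    nlinarith
  · rw [PiLp.inner_apply, Fin.sum_univ_two]
    simp
    ring
  · intro w
    refine ⟨w 0 * e₁ 0 + w 1 * e₁ 1, -(w 0 * e₁ 1) + w 1 * e₁ 0, ?_⟩
    ext i
    fin_cases i
    · simp
      linear_combination -(w 0) * hsq
    · simp
      linear_combination -(w 1) * hsq

end Pool.Agent.H71R
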