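import Pool.Agent.H71R.Aux1

set_option autoImplicit false

namespace Pool.Agent.H71R

section ring
variable {R : Type*} [CommRing R]

/-- `(Y n, Z n, Y (n+1), Z (n+1))` -/
def st (a b c : R) : ℕ → R × R × R × R
  | 0 => (c, 1, (a ^ 2 - b ^ 2) ^ 2 + 2 * c ^ 2 * (a ^ 2 + b ^ 2), 2 * c * (a ^ 2 - b ^ 2))
  | (n + 1) => ((st a b c n).2.2.1, (st a b c n).2.2.2,
      2 * (a ^ 2 - b ^ 2) * (st a b c n).2.2.1 * (st a b c n).2.2.2 * (st a b c n).2.1 -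
        (st a b c n).1 * ((st a b c n).2.2.1 ^ 2 - c ^ 2 * (st a b c n).2.2.2 ^ 2),
      (st a b c n).2.1 * ((st a b c n).2.2.1 ^ 2 - c ^ 2 * (st a b c n).2.2.2 ^ 2))

def Yn (a b c : R) (n : ℕ) : R := (st a b c n).1
def Zn (a b c : R) (n : ℕ) : R := (st a b c n).2.1

theorem Yn_zero (a b c : R) : Yn a b c 0 = c := rfl
theorem Zn_zero (a b c : R) : Zn a b c 0 = 1 := rfl
theorem Yn_one (a b c : R) :
    Yn a b c 1 = (a ^ 2 - b ^ 2) ^ 2 + 2 * c ^ 2 * (a ^ 2 + b ^ 2) := rfl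
theorem Zn_one (a b c : R) : Zn a b c 1 = 2 * c * (a ^ 2 - b ^ 2) := rfl
theorem Yn_succ (a b c : R) (n : ℕ) : Yn a b c (n + 2) =
    2 * (a ^ 2 - b ^ 2) * Yn a b c (n + 1) * Zn a b c (n + 1) * Zn a b c n -
        Yn a b c n * (Yn a b c (n + 1) ^ 2 - c ^ 2 * Zn a b c (n + 1) ^ 2) := rfl
theorem Zn_succ (a b c : R) (n : ℕ) : Zn a b c (n + 2) =
    Zn a b c n * (Yn a b c (n + 1) ^ 2 - c ^ 2 * Zn a b c (n + 1) ^ 2) := rfl

theorem map_YZ {S : Type*} [CommRing S] (f : R →+* S) (a b c : R) (n : ℕ) :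
    f (Yn a b c n) = Yn (f a) (f b) (f c) n ∧ f (Zn a b c n) = Zn (f a) (f b) (f c) n ∧
    f (Yn a b c (n + 1)) = Yn (f a) (f b) (f c) (n + 1) ∧
    f (Zn a b c (n + 1)) = Zn (f a) (f b) (f c) (n + 1) := by
  have f2 : f 2 = 2 := map_ofNat f 2
  induction n with
  | zero => simp [Yn_zero, Zn_zero, Yn_one, Zn_one, f2]
  | succ n ih =>
    obtain ⟨h1, h2, h3, h4⟩ := ih
    refine ⟨h3, h4, ?_, ?_⟩
    · rw [Yn_succ, Yn_succ, ← h1, ← h2, ← h3, ← h4]; simp [f2]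
    · rw [Zn_succ, Zn_succ, ← h2, ← h3, ← h4]; simp

theorem inv_YZ (a b c : R) (n : ℕ) :
    Yn a b c n ^ 2 * Yn a b c (n + 1) ^ 2 - c ^ 2 * (Yn a b c n ^ 2 * Zn a b c (n + 1) ^ 2 +
      Yn a b c (n + 1) ^ 2 * Zn a b c n ^ 2) -
      2 * (a ^ 2 - b ^ 2) * Yn a b c n * Yn a b c (n + 1) * Zn a b c n * Zn a b c (n + 1) +
      ((a ^ 2 - b ^ 2) ^ 2 + 2 * c ^ 2 * (a ^ 2 + b ^ 2) + c ^ 4) * Zn a b c n ^ 2 *
        Zn a b c (n + 1) ^ 2 = 0 := by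
  induction n with
  | zero =>
    rw [Yn_zero, Zn_zero, zero_add, Yn_one, Zn_one]; ring
  | succ n ih =>
    rw [Yn_succ, Zn_succ]
    linear_combination (Yn a b c (n + 1) ^ 2 - c ^ 2 * Zn a b c (n + 1) ^ 2) ^ 2 * ih

end ring

/-- The `n`-th good point. -/
def xn (a b c : ℚ) (n : ℕ) : ℚ :=
  (Yn a b c n * Yn a b c (n + 1) / (Zn a b c n * Zn a b c (n + 1)) - (a ^ 2 - b ^ 2 - c ^ 2)) / (2 * c)

theorem good_xn {a b c : ℚ} (hc : c ≠ 0) {n : ℕ} (h1 : Zn a b c n ≠ 0) (h2 : Zn a b c (n + 1) ≠ 0) :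
    Good a b c (xn a b c n) := by
  have h := inv_YZ a b c n
  unfold xn
  set Y := Yn a b c n
  set Y' := Yn a b c (n + 1)
  set Z := Zn a b c n
  set Z' := Zn a b c (n + 1)
  refine ⟨⟨(Y / Z + Y' / Z') / 2, ?_⟩, ⟨(Y / Z - Y' / Z') / 2, ?_⟩⟩
  · field_simp
    linear_combination h
  · field_simp
    linear_combination h

theorem xn_ne {a b c : ℚ} (hc : c ≠ 0) {i j : ℕ} (h1 : Zn a b c i ≠ 0) (h2 : Zn a b c (i + 1) ≠ 0)
    (h3 : Zn a b c j ≠ 0) (h4 : Zn a b c (j + 1) ≠ 0)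
    (h : Yn a b c i * Yn a b c (i + 1) * (Zn a b c j * Zn a b c (j + 1)) -
      Yn a b c j * Yn a b c (j + 1) * (Zn a b c i * Zn a b c (i + 1)) ≠ 0) :
    xn a b c i ≠ xn a b c j := by
  intro he
  apply h
  unfold xn at he
  have h5 : Yn a b c i * Yn a b c (i + 1) / (Zn a b c i * Zn a b c (i + 1)) =
      Yn a b c j * Yn a b c (j + 1) / (Zn a b c j * Zn a b c (j + 1)) := by
    have h6 : (2 * c) ≠ 0 := mul_ne_zero two_ne_zero hc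
    have := (div_left_inj' h6).mp he
    linarith
  rw [div_eq_div_iff (mul_ne_zero h1 h2) (mul_ne_zero h3 h4)] at h5
  linear_combination h5

/-- the auxiliary continued fraction -/
def wn : ℕ → ℚ
  | 0 => 0
  | (n + 1) => 9 / (8 + wn n)

theorem wn_nonneg (n : ℕ) : 0 ≤ wn n := by
  induction n with
  | zero => exact le_refl _
  | succ n ih => unfold wn; positivity

theorem wn_pos (n : ℕ) : 0 < wn (n + 1) := by
  have := wn_nonneg n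
  unfold wn; positivity

theorem wn_rel (n : ℕ) : wn (n + 1) * (8 + wn n) = 9 := by
  have := wn_nonneg n
  rw [wn]
  field_simp

theorem base_seq (n : ℕ) : Zn (0:ℚ) 3 4 n ≠ 0 ∧ Zn (0:ℚ) 3 4 (n + 1) ≠ 0 ∧
    Yn (0:ℚ) 3 4 n = (-1) ^ n * (4 + wn n) * Zn (0:ℚ) 3 4 n ∧
    Yn (0:ℚ) 3 4 (n + 1) = (-1) ^ (n + 1) * (4 + wn (n + 1)) * Zn (0:ℚ) 3 4 (n + 1) := by
  induction n with
  | zero =>
    refine ⟨?_, ?_, ?_, ?_⟩
    · rw [Zn_zero]; norm_num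
    · rw [zero_add, Zn_one]; norm_num
    · rw [Zn_zero, Yn_zero, wn]; norm_num
    · rw [zero_add, Zn_one, Yn_one, wn, wn]; norm_num
  | succ n ih =>
    obtain ⟨h1, h2, h3, h4⟩ := ih
    have hw := wn_pos n
    have r1 := wn_rel n
    have r2 := wn_rel (n + 1)
    have e2 : ((-1 : ℚ) ^ n) ^ 2 = 1 := by rw [← pow_mul, mul_comm, pow_mul]; norm_num
    have hZ : Zn (0:ℚ) 3 4 (n + 2) = Zn (0:ℚ) 3 4 n * Zn (0:ℚ) 3 4 (n + 1) ^ 2 *
        (wn (n + 1) * (8 + wn (n + 1))) := by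
      rw [Zn_succ, h4]
      have : (-1 : ℚ) ^ (n + 1) = -(-1) ^ n := by rw [pow_succ]; ring
      rw [this]
      linear_combination (Zn (0:ℚ) 3 4 n * Zn (0:ℚ) 3 4 (n + 1) ^ 2 * (4 + wn (n + 1)) ^ 2) * e2
    refine ⟨h2, ?_, h4, ?_⟩
    · rw [hZ]
      exact mul_ne_zero (mul_ne_zero h1 (pow_ne_zero _ h2)) (by positivity)
    · rw [hZ, Yn_succ, h3, h4]
      have p1 : (-1 : ℚ) ^ (n + 1) = -(-1) ^ n := by rw [pow_succ]; ring
      have p2 : (-1 : ℚ) ^ (n + 1 + 1) = (-1) ^ n := by rw [pow_succ, pow_succ]; ring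
      rw [p1, p2]
      obtain ⟨e, he⟩ : ∃ e : ℚ, e = (-1) ^ n := ⟨_, rfl⟩
      rw [← he] at e2 ⊢
      obtain ⟨w, hw0⟩ : ∃ w : ℚ, w = wn n := ⟨_, rfl⟩
      obtain ⟨w', hw1⟩ : ∃ w' : ℚ, w' = wn (n + 1) := ⟨_, rfl⟩
      obtain ⟨w'', hw2⟩ : ∃ w'' : ℚ, w'' = wn (n + 1 + 1) := ⟨_, rfl⟩
      rw [← hw0, ← hw1] at r1
      rw [← hw1, ← hw2] at r2
      rw [← hw0, ← hw1, ← hw2]
      obtain ⟨Z, hZ0⟩ : ∃ Z : ℚ, Z = Zn (0:ℚ) 3 4 n := ⟨_, rfl⟩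
      obtain ⟨Z', hZ1⟩ : ∃ Z' : ℚ, Z' = Zn (0:ℚ) 3 4 (n + 1) := ⟨_, rfl⟩
      rw [← hZ0, ← hZ1]
      linear_combination (-e * Z * Z' ^ 2 * (4 + w) * (4 + w') ^ 2) * e2 -
        e * Z * Z' ^ 2 * (8 + w') * r1 - e * Z * Z' ^ 2 * w' * r2

theorem Dn_step (n : ℕ) : wn (n + 2) - wn (n + 1) =
    -9 * (wn (n + 1) - wn n) / ((8 + wn n) * (8 + wn (n + 1))) := by
  have h1 := wn_nonneg n
  have h2 := wn_nonneg (n + 1)
  have r1 := wn_rel n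
  have r2 := wn_rel (n + 1)
  rw [eq_div_iff (by positivity)]
  linear_combination (8 + wn n) * r2 - (8 + wn (n + 1)) * r1

theorem Dn_ne (n : ℕ) : wn (n + 1) - wn n ≠ 0 := by
  induction n with
  | zero =>
    have h0 : wn 0 = 0 := rfl
    have h1 : wn (0 + 1) = 9 / (8 + wn 0) := rfl
    rw [h1, h0]; norm_num
  | succ n ih =>
    have h1 := wn_nonneg n
    have h2 := wn_nonneg (n + 1)
    rw [Dn_step]
    exact div_ne_zero (mul_ne_zero (by norm_num) ih) (by positivity)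

theorem Dn_anti : StrictAnti (fun n => |wn (n + 1) - wn n|) := by
  apply strictAnti_nat_of_succ_lt
  intro n
  have h1 := wn_nonneg n
  have h2 := wn_nonneg (n + 1)
  have h3 : 0 < |wn (n + 1) - wn n| := abs_pos.mpr (Dn_ne n)
  show |wn (n + 2) - wn (n + 1)| < |wn (n + 1) - wn n|
  rw [Dn_step, abs_div, abs_mul, abs_of_pos (by positivity : 0 < (8 + wn n) * (8 + wn (n + 1))),
    div_lt_iff₀ (by positivity)]
  have : |(-9 : ℚ)| = 9 := by norm_num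
  rw [this]
  have h4 : 64 ≤ (8 + wn n) * (8 + wn (n + 1)) := by nlinarith [mul_nonneg h1 h2]
  nlinarith

theorem base_ne {i j : ℕ} (hij : i ≠ j) :
    Yn (0:ℚ) 3 4 i * Yn (0:ℚ) 3 4 (i + 1) * (Zn (0:ℚ) 3 4 j * Zn (0:ℚ) 3 4 (j + 1)) -
      Yn (0:ℚ) 3 4 j * Yn (0:ℚ) 3 4 (j + 1) * (Zn (0:ℚ) 3 4 i * Zn (0:ℚ) 3 4 (i + 1)) ≠ 0 := by
  obtain ⟨h1, h2, h3, h4⟩ := base_seq i
  obtain ⟨k1, k2, k3, k4⟩ := base_seq j
  rw [h3, h4, k3, k4]
  have e1 : (-1 : ℚ) ^ i * (-1) ^ (i + 1) = -1 := by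
    rw [← pow_add, show i + (i + 1) = 2 * i + 1 by ring, pow_succ, pow_mul]; norm_num
  have e2 : (-1 : ℚ) ^ j * (-1) ^ (j + 1) = -1 := by
    rw [← pow_add, show j + (j + 1) = 2 * j + 1 by ring, pow_succ, pow_mul]; norm_num
  have r1 := wn_rel i
  have r2 := wn_rel j
  have key : (-1) ^ i * (4 + wn i) * Zn (0:ℚ) 3 4 i * ((-1) ^ (i + 1) * (4 + wn (i + 1)) *
      Zn (0:ℚ) 3 4 (i + 1)) * (Zn (0:ℚ) 3 4 j * Zn (0:ℚ) 3 4 (j + 1)) -
      (-1) ^ j * (4 + wn j) * Zn (0:ℚ) 3 4 j * ((-1) ^ (j + 1) * (4 + wn (j + 1)) *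
      Zn (0:ℚ) 3 4 (j + 1)) * (Zn (0:ℚ) 3 4 i * Zn (0:ℚ) 3 4 (i + 1)) =
      4 * ((wn (i + 1) - wn i) - (wn (j + 1) - wn j)) * (Zn (0:ℚ) 3 4 i * Zn (0:ℚ) 3 4 (i + 1) *
        (Zn (0:ℚ) 3 4 j * Zn (0:ℚ) 3 4 (j + 1))) := by
    linear_combination (Zn (0:ℚ) 3 4 i * Zn (0:ℚ) 3 4 (i + 1) *
        (Zn (0:ℚ) 3 4 j * Zn (0:ℚ) 3 4 (j + 1))) * ((4 + wn i) * (4 + wn (i + 1)) * e1 -
        (4 + wn j) * (4 + wn (j + 1)) * e2 - r1 + r2)
  rw [key]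
  refine mul_ne_zero (mul_ne_zero (by norm_num) ?_) (mul_ne_zero (mul_ne_zero h1 h2) (mul_ne_zero k1 k2))
  intro h
  apply hij
  apply Dn_anti.injective
  show |wn (i + 1) - wn i| = |wn (j + 1) - wn j|
  rw [sub_eq_zero.mp h]

/-- generic non-vanishing along a polynomial path through `(0,3,4)` -/
theorem generic_path (A B C : Polynomial ℚ) (hA : A.eval 0 = 0) (hB : B.eval 0 = 3)
    (hC : C.eval 0 = 4) (N : ℕ) {l r : ℚ} (hlr : l < r) :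
    ∃ x : ℚ, l < x ∧ x < r ∧ C.eval x ≠ 0 ∧
      (∀ n ≤ N, Zn (A.eval x) (B.eval x) (C.eval x) n ≠ 0) ∧
      (∀ i ≤ N, ∀ j ≤ N, i ≠ j →
        Yn (A.eval x) (B.eval x) (C.eval x) i * Yn (A.eval x) (B.eval x) (C.eval x) (i + 1) *
        (Zn (A.eval x) (B.eval x) (C.eval x) j * Zn (A.eval x) (B.eval x) (C.eval x) (j + 1)) -
        Yn (A.eval x) (B.eval x) (C.eval x) j * Yn (A.eval x) (B.eval x) (C.eval x) (j + 1) *
        (Zn (A.eval x) (B.eval x) (C.eval x) i * Zn (A.eval x) (B.eval x) (C.eval x) (i + 1)) ≠ 0) := by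
  classical
  set P : Polynomial ℚ := C * (∏ n ∈ Finset.range (N + 1), Zn A B C n) *
    ∏ p ∈ (Finset.range (N + 1)).offDiag,
      (Yn A B C p.1 * Yn A B C (p.1 + 1) * (Zn A B C p.2 * Zn A B C (p.2 + 1)) -
        Yn A B C p.2 * Yn A B C (p.2 + 1) * (Zn A B C p.1 * Zn A B C (p.1 + 1))) with hP
  have hY : ∀ (x : ℚ) (n : ℕ), (Yn A B C n).eval x = Yn (A.eval x) (B.eval x) (C.eval x) n :=
    fun x n => (map_YZ (Polynomial.evalRingHom x) A B C n).1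
  have hZ : ∀ (x : ℚ) (n : ℕ), (Zn A B C n).eval x = Zn (A.eval x) (B.eval x) (C.eval x) n :=
    fun x n => (map_YZ (Polynomial.evalRingHom x) A B C n).2.1
  have heval : ∀ x : ℚ, P.eval x = C.eval x * (∏ n ∈ Finset.range (N + 1),
      Zn (A.eval x) (B.eval x) (C.eval x) n) *
      ∏ p ∈ (Finset.range (N + 1)).offDiag,
      (Yn (A.eval x) (B.eval x) (C.eval x) p.1 * Yn (A.eval x) (B.eval x) (C.eval x) (p.1 + 1) *
        (Zn (A.eval x) (B.eval x) (C.eval x) p.2 * Zn (A.eval x) (B.eval x) (C.eval x) (p.2 + 1)) -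
        Yn (A.eval x) (B.eval x) (C.eval x) p.2 * Yn (A.eval x) (B.eval x) (C.eval x) (p.2 + 1) *
        (Zn (A.eval x) (B.eval x) (C.eval x) p.1 * Zn (A.eval x) (B.eval x) (C.eval x) (p.1 + 1))) := by
    intro x
    rw [hP]
    simp only [Polynomial.eval_mul, Polynomial.eval_prod, Polynomial.eval_sub, hY, hZ]
  have hP0 : P ≠ 0 := by
    intro h
    have h1 := heval 0
    rw [h, Polynomial.eval_zero, hA, hB, hC] at h1
    have h2 := h1.symm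
    rw [mul_eq_zero, mul_eq_zero] at h2
    rcases h2 with (h2 | h2) | h2
    · norm_num at h2
    · rw [Finset.prod_eq_zero_iff] at h2
      obtain ⟨n, _, hn⟩ := h2
      exact (base_seq n).1 hn
    · rw [Finset.prod_eq_zero_iff] at h2
      obtain ⟨p, hp, hn⟩ := h2
      exact base_ne (Finset.mem_offDiag.mp hp).2.2 hn
  have hinf : (Set.Ioo l r).Infinite := Set.Ioo_infinite hlr
  have hfin : {x : ℚ | P.IsRoot x}.Finite := Polynomial.finite_setOfPred_isRoot hP0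
  obtain ⟨x, hx, hxP⟩ := (hinf.sdiff hfin).nonempty
  have hx0 : P.eval x ≠ 0 := hxP
  rw [heval x] at hx0
  have h1 := left_ne_zero_of_mul hx0
  have h2 := right_ne_zero_of_mul hx0
  refine ⟨x, hx.1, hx.2, left_ne_zero_of_mul h1, ?_, ?_⟩
  · intro n hn h
    exact right_ne_zero_of_mul h1 (Finset.prod_eq_zero (Finset.mem_range.mpr (by omega)) h)
  · intro i hi j hj hij h
    exact h2 (Finset.prod_eq_zero (i := (i, j)) (Finset.mem_offDiag.mpr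
      ⟨Finset.mem_range.mpr (by omega), Finset.mem_range.mpr (by omega), hij⟩) h)

end Pool.Agent.H71R
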