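import Pool.Agent.H71R.Cubic

set_option autoImplicit false

namespace Pool.Agent.H71R

theorem size_lem {K μ b : ℚ} (hK : 1 ≤ K) (hb : 0 < b) (hb' : 1 ≤ K * b) (hμ : 4 * K ^ 4 ≤ μ) :
    4 * K ^ 3 ≤ b * μ := by
  have hK0 : 0 < K := by linarith
  have hμ0 : 0 < μ := lt_of_lt_of_le (by positivity) hμ
  have h1 : μ ≤ (K * b) * μ := le_mul_of_one_le_left hμ0.le hb'
  have h2 : K * (4 * K ^ 3) ≤ K * (b * μ) := by
    calc K * (4 * K ^ 3) = 4 * K ^ 4 := by ring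
      _ ≤ μ := hμ
      _ ≤ (K * b) * μ := h1
      _ = K * (b * μ) := by ring
  exact le_of_mul_le_mul_left h2 hK0

theorem pow_lem {K a : ℚ} (hK : 1 ≤ K) (ha : a ≤ K) : a ≤ K ^ 3 :=
  ha.trans (le_self_pow₀ hK (by norm_num))

theorem sq_lem {K t : ℚ} (ht' : 1 ≤ K * t) : t ^ 2 + 1 ≤ K ^ 2 * t ^ 2 + t ^ 2 := by
  have : 1 ≤ (K * t) ^ 2 := one_le_pow₀ ht'
  rw [mul_pow] at this
  linarith

/-- the pure inequality part -/
theorem delta_bounds {a b t t₀ p K μ σ₀ Δ : ℚ}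
    (hσ₀ : σ₀ = 1 ∨ σ₀ = -1) (hK : 1 ≤ K)
    (ha : 0 < a) (ha' : a ≤ K) (hb : 0 < b) (hb' : 1 ≤ K * b)
    (ht : 0 < t) (ht' : 1 ≤ K * t) (hp : 0 < p) (hp1 : 1 ≤ K * p) (hp2 : p ≤ K)
    (htt1 : t ≤ 2 * (t - t₀)) (htt2 : 2 * (t - t₀) ≤ 3 * t) (hμ : 4 * K ^ 4 ≤ μ)
    (key : Δ * (μ * (b * μ - σ₀ * a) * (t - t₀) * t * p) =
      μ * b * t ^ 2 * (p ^ 2 + 1) - σ₀ * a * p ^ 2 * (t ^ 2 + 1)) :
    4 ≤ 9 * μ * Δ ∧ μ * Δ ≤ 12 * K := by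
  have hK0 : 0 < K := by linarith
  have hK2 : 1 ≤ K ^ 2 := one_le_pow₀ hK
  have hK3 : 1 ≤ K ^ 3 := one_le_pow₀ hK
  have hμ0 : 0 < μ := lt_of_lt_of_le (by positivity) hμ
  have hbμ : 4 * K ^ 3 ≤ b * μ := size_lem hK hb hb' hμ
  have haK : a ≤ K ^ 3 := pow_lem hK ha'
  have hbμ0 : 0 < b * μ := mul_pos hb hμ0
  have hA : a * p ^ 2 * (t ^ 2 + 1) * 2 ≤ μ * b * t ^ 2 * (p ^ 2 + 1) := by
    have e1 : t ^ 2 + 1 ≤ 2 * K ^ 2 * t ^ 2 := by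
      have h := sq_lem ht'
      have h2 : t ^ 2 ≤ K ^ 2 * t ^ 2 := le_mul_of_one_le_left (sq_nonneg t) hK2
      linarith
    have e2 : a * (t ^ 2 + 1) * 2 ≤ μ * b * t ^ 2 := by
      have h1 : a * (t ^ 2 + 1) ≤ K * (2 * K ^ 2 * t ^ 2) :=
        mul_le_mul ha' e1 (by positivity) hK0.le
      have h2 : 4 * K ^ 3 * t ^ 2 ≤ (b * μ) * t ^ 2 :=
        mul_le_mul_of_nonneg_right hbμ (sq_nonneg t)
      calc a * (t ^ 2 + 1) * 2 ≤ K * (2 * K ^ 2 * t ^ 2) * 2 := by linarith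
        _ = 4 * K ^ 3 * t ^ 2 := by ring
        _ ≤ (b * μ) * t ^ 2 := h2
        _ = μ * b * t ^ 2 := by ring
    have e4 : 0 ≤ μ * b * t ^ 2 := by positivity
    calc a * p ^ 2 * (t ^ 2 + 1) * 2 = (a * (t ^ 2 + 1) * 2) * p ^ 2 := by ring
      _ ≤ (μ * b * t ^ 2) * p ^ 2 := mul_le_mul_of_nonneg_right e2 (sq_nonneg p)
      _ ≤ μ * b * t ^ 2 * (p ^ 2 + 1) := by rw [mul_add]; linarith
  have ha2 : 2 * a ≤ b * μ := by linarith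
  have hB1 : b * μ ≤ 2 * (b * μ - σ₀ * a) := by
    rcases hσ₀ with h' | h' <;> rw [h'] <;> linarith
  have hB2 : 2 * (b * μ - σ₀ * a) ≤ 3 * (b * μ) := by
    rcases hσ₀ with h' | h' <;> rw [h'] <;> linarith
  have hpos : 0 ≤ a * p ^ 2 * (t ^ 2 + 1) := by positivity
  set A : ℚ := μ * b * t ^ 2 * (p ^ 2 + 1) - σ₀ * a * p ^ 2 * (t ^ 2 + 1) with hAdef
  have hAlo : μ * b * t ^ 2 * (p ^ 2 + 1) ≤ 2 * A := by
    rw [hAdef]
    rcases hσ₀ with h' | h' <;> rw [h'] <;> linarith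
  have hAhi : 2 * A ≤ 3 * (μ * b * t ^ 2 * (p ^ 2 + 1)) := by
    rw [hAdef]
    rcases hσ₀ with h' | h' <;> rw [h'] <;> linarith
  set Den : ℚ := μ * (b * μ - σ₀ * a) * (t - t₀) * t * p with hDen
  have h2 : 0 ≤ μ * t * p := by positivity
  have hDlo : μ * (b * μ) * t * t * p ≤ 4 * Den := by
    have h1 : (b * μ) * t ≤ (2 * (b * μ - σ₀ * a)) * (2 * (t - t₀)) :=
      mul_le_mul hB1 htt1 ht.le (by linarith)
    have h3 := mul_le_mul_of_nonneg_left h1 h2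
    calc μ * (b * μ) * t * t * p = μ * t * p * ((b * μ) * t) := by ring
      _ ≤ _ := h3
      _ = 4 * Den := by rw [hDen]; ring
  have hDhi : 4 * Den ≤ 9 * (μ * (b * μ) * t * t * p) := by
    have h1 : (2 * (b * μ - σ₀ * a)) * (2 * (t - t₀)) ≤ (3 * (b * μ)) * (3 * t) :=
      mul_le_mul hB2 htt2 (by linarith) (by linarith)
    have h3 := mul_le_mul_of_nonneg_left h1 h2
    calc 4 * Den = μ * t * p * ((2 * (b * μ - σ₀ * a)) * (2 * (t - t₀))) := by rw [hDen]; ring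
      _ ≤ _ := h3
      _ = 9 * (μ * (b * μ) * t * t * p) := by ring
  have hDen0 : 0 < Den := by
    have : 0 < μ * (b * μ) * t * t * p := by positivity
    linarith
  have hpp : 2 * p ≤ p ^ 2 + 1 := by nlinarith [sq_nonneg (p - 1)]
  have hpp2 : p ^ 2 + 1 ≤ 2 * K * p := by
    have : p * p ≤ K * p := mul_le_mul_of_nonneg_right hp2 hp.le
    nlinarith
  have hmb : 0 ≤ μ * b * t ^ 2 := by positivity
  constructor
  · have h1 : 4 * Den ≤ 9 * μ * Δ * Den := by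
      have h3 : μ * b * t ^ 2 * (2 * p) ≤ 2 * A :=
        (mul_le_mul_of_nonneg_left hpp hmb).trans hAlo
      have h4 : μ * (μ * b * t ^ 2 * p) ≤ μ * A :=
        mul_le_mul_of_nonneg_left (by linarith) hμ0.le
      calc 4 * Den ≤ 9 * (μ * (b * μ) * t * t * p) := hDhi
        _ = 9 * (μ * (μ * b * t ^ 2 * p)) := by ring
        _ ≤ 9 * (μ * A) := by linarith
        _ = 9 * μ * Δ * Den := by rw [← key]; ring
    exact le_of_mul_le_mul_right h1 hDen0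
  · have h1 : μ * Δ * Den ≤ 12 * K * Den := by
      have h3 : 2 * A ≤ 3 * (μ * b * t ^ 2 * (2 * K * p)) :=
        hAhi.trans (mul_le_mul_of_nonneg_left (mul_le_mul_of_nonneg_left hpp2 hmb) (by norm_num))
      have h4 : μ * (2 * A) ≤ μ * (3 * (μ * b * t ^ 2 * (2 * K * p))) :=
        mul_le_mul_of_nonneg_left h3 hμ0.le
      have h5 : 3 * K * (μ * (b * μ) * t * t * p) ≤ 3 * K * (4 * Den) :=
        mul_le_mul_of_nonneg_left hDlo (by positivity)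
      calc μ * Δ * Den = μ * A := by rw [← key]; ring
        _ ≤ 3 * K * (μ * (b * μ) * t * t * p) := by
            have : μ * (3 * (μ * b * t ^ 2 * (2 * K * p))) =
              2 * (3 * K * (μ * (b * μ) * t * t * p)) := by ring
            linarith
        _ ≤ _ := h5
        _ = 12 * K * Den := by ring
    exact le_of_mul_le_mul_right h1 hDen0

theorem step_t {a b c t s t₀ s₀ K μ σ₀ σ₁ p : ℚ}
    (hσ₀ : σ₀ = 1 ∨ σ₀ = -1) (hσ₁ : σ₁ = 1 ∨ σ₁ = -1) (hK : 1 ≤ K)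
    (ha : 0 < a) (ha' : a ≤ K) (hb : 0 < b) (hb' : 1 ≤ K * b)
    (ht : 0 < t) (ht' : 1 ≤ K * t) (hp : 0 < p) (hp1 : 1 ≤ K * p) (hp2 : p ≤ K)
    (hs : s = σ₁ * p) (h1 : On a b c t s) (h0 : On a b c t₀ s₀)
    (h0t : 2 * |t₀| ≤ t) (hμ : 4 * K ^ 4 ≤ μ) (hm : s - s₀ = -σ₀ * μ * (t - t₀)) :
    ∃ t₃ s₃ : ℚ, On a b c t₃ s₃ ∧ 4 ≤ 9 * μ * (σ₀ * σ₁ * (t₃ - t)) ∧
      μ * (σ₀ * σ₁ * (t₃ - t)) ≤ 12 * K := by
  have hσ₁2 : σ₁ ^ 2 = 1 := by rcases hσ₁ with h | h <;> rw [h] <;> norm_num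
  have hK0 : 0 < K := by linarith
  have hK3 : 1 ≤ K ^ 3 := one_le_pow₀ hK
  have hμ0 : 0 < μ := lt_of_lt_of_le (by positivity) hμ
  have hne : t ≠ t₀ := by
    rintro rfl
    rw [abs_of_pos ht] at h0t
    linarith
  have htt1 : t ≤ 2 * (t - t₀) := by linarith [le_abs_self t₀]
  have htt2 : 2 * (t - t₀) ≤ 3 * t := by linarith [neg_abs_le t₀]
  obtain ⟨m, hmdef⟩ : ∃ m : ℚ, m = -σ₀ * μ := ⟨_, rfl⟩
  obtain ⟨k, hk⟩ : ∃ k : ℚ, k = s - m * t := ⟨_, rfl⟩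
  have hm0 : m ≠ 0 := by
    rw [hmdef]
    exact mul_ne_zero (neg_ne_zero.mpr (by rcases hσ₀ with h | h <;> rw [h] <;> norm_num)) hμ0.ne'
  have hbμ : 4 * K ^ 3 ≤ b * μ := size_lem hK hb hb' hμ
  have haK : a ≤ K ^ 3 := pow_lem hK ha'
  have hab : a + b * m ≠ 0 := by
    intro h
    rw [hmdef] at h
    rcases hσ₀ with h' | h' <;> rw [h'] at h <;> linarith
  have hμt : 4 * K ^ 3 ≤ t * μ := size_lem hK ht ht' hμ
  have hpK : p ≤ K ^ 3 := pow_lem hK hp2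
  have hk0 : k ≠ 0 := by
    intro h
    rw [hk, hmdef, hs] at h
    rcases hσ₀ with h' | h' <;> rcases hσ₁ with h'' | h'' <;> rw [h', h''] at h <;> linarith
  obtain ⟨ht0', hs0', _⟩ := id h0
  have hden : m * (a + b * m) * t * t₀ ≠ 0 :=
    mul_ne_zero (mul_ne_zero (mul_ne_zero hm0 hab) ht.ne') ht0'
  obtain ⟨t₃, ht3⟩ : ∃ t₃ : ℚ, t₃ = a * k / (m * (a + b * m) * t * t₀) := ⟨_, rfl⟩
  have ht3ne : t₃ ≠ 0 := by rw [ht3]; exact div_ne_zero (mul_ne_zero ha.ne' hk0) hden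
  have h3 : m * (a + b * m) * t * t₀ * t₃ = a * k := by
    rw [ht3, mul_comm, div_mul_cancel₀ _ hden]
  have hs1' : s = m * t + k := by rw [hk]; ring
  have hs0'' : s₀ = m * t₀ + k := by rw [hk, hmdef]; linear_combination -hm
  obtain ⟨hOn, hF⟩ := third h1 h0 hne hb.ne' hs1' hs0'' ht3ne h3
  refine ⟨t₃, m * t₃ + k, hOn, ?_⟩
  refine delta_bounds (Δ := σ₀ * σ₁ * (t₃ - t)) hσ₀ hK ha ha' hb hb' ht ht' hp hp1 hp2 htt1 htt2 hμ ?_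
  rw [hmdef, hs] at hF
  have hs2 : (σ₁ * p) ^ 2 = p ^ 2 := by rw [mul_pow, hσ₁2, one_mul]
  rw [hs2] at hF
  rcases hσ₀ with h' | h'
  · rw [h'] at hF ⊢; linear_combination -hF
  · rw [h'] at hF ⊢; linear_combination hF

end Pool.Agent.H71R
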